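import Pool.Agent.Helper78.KS.Cone

/-!
Assembly: the cone of valid linear inequalities for complexities is not semialgebraic.
-/

set_option autoImplicit false

namespace Pool.Agent.Helper78.KS

open Finset Pool.Agent.Helper981.KP Pool.Agent.N372.EN

/-! ### linear functionals over a general ring -/

/-- `fI` over a ring -/
def fR {R : Type} [Ring R] (h : Finset (Fin 4) → R) : R := h {0} + h {1} - h {0, 1}

/-- `gI` over a ring -/
def gR {R : Type} [Ring R] (h : Finset (Fin 4) → R) : R :=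
  (h {2} + h {3} - h {2, 3}) + (h {0, 2} + h {0, 3} - h {0, 2, 3} - h {0})
    + (h {0, 2} + h {1, 2} - h {0, 1, 2} - h {2})
    + (h {0, 3} + h {1, 3} - h {0, 1, 3} - h {3})
    + (h {0, 1} + h {1, 2} - h {0, 1, 2} - h {1})
    + (h {0, 1} + h {1, 3} - h {0, 1, 3} - h {1})

variable {k : ℕ} (hk : 4 ≤ k)

/-- the image in `Fin k` of a subset of `Fin 4` -/
def mp (S : Finset (Fin 4)) : Finset (Fin k) := S.map (Fin.castLEEmb hk)

/-- indicator -/
def dl1 (R : Type) [Ring R] (u : Finset (Fin k)) (S : Finset (Fin 4)) : R :=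
  if mp hk S = u then 1 else 0

/-- the coefficient vector -/
def cvR {R : Type} [Ring R] (x y : R) (u : Finset (Fin k)) : R :=
  x * gR (dl1 hk R u) + y * dl1 hk R u {1} - fR (dl1 hk R u)

theorem sum_dl_all (h : Finset (Fin k) → ℝ) (S : Finset (Fin 4)) :
    ∑ u, dl1 hk ℝ u S * h u = h (mp hk S) := by
  unfold dl1
  simp

theorem sum_dl_sub (h : Finset (Fin k) → ℝ) (S : Finset (Fin 4)) (hS : S.Nonempty) :
    ∑ u : {u : Finset (Fin k) // u.Nonempty}, dl1 hk ℝ u.1 S * h u.1 = h (mp hk S) := by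
  have hne : (mp hk S).Nonempty := by
    unfold mp
    simpa using hS
  rw [Finset.sum_eq_single (⟨mp hk S, hne⟩ : {u : Finset (Fin k) // u.Nonempty})]
  · simp [dl1]
  · intro u _ hu
    unfold dl1
    rw [if_neg, zero_mul]
    intro he
    exact hu (Subtype.ext he.symm)
  · intro h
    exact absurd (Finset.mem_univ _) h

/-- the value of the functional -/
noncomputable def Ev (x y : ℝ) (h : Finset (Fin k) → ℝ) : ℝ :=
  x * gI (fun S => h (mp hk S)) + y * h (mp hk {1}) - fI (fun S => h (mp hk S))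

theorem cv_expand (x y : ℝ) (u : Finset (Fin k)) (t : ℝ) : cvR hk x y u * t =
    x * gI (fun S => dl1 hk ℝ u S * t) + y * (dl1 hk ℝ u {1} * t) -
      fI (fun S => dl1 hk ℝ u S * t) := by
  unfold cvR gR gI fR fI
  ring

theorem sum_all (x y : ℝ) (h : Finset (Fin k) → ℝ) : ∑ u, cvR hk x y u * h u = Ev hk x y h := by
  have e := sum_dl_all hk h
  simp only [cv_expand]
  unfold Ev gI fI
  simp only [Finset.sum_add_distrib, Finset.sum_sub_distrib, ← Finset.mul_sum, e]

theorem sum_sub' (x y : ℝ) (h : Finset (Fin k) → ℝ) :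
    ∑ u : {u : Finset (Fin k) // u.Nonempty}, cvR hk x y u.1 * h u.1 = Ev hk x y h := by
  have e := sum_dl_sub hk h
  simp only [cv_expand]
  unfold Ev gI fI
  simp only [Finset.sum_add_distrib, Finset.sum_sub_distrib, ← Finset.mul_sum]
  rw [e {0} (by simp), e {1} (by simp), e {2} (by simp), e {3} (by simp), e {0, 1} (by simp),
    e {2, 3} (by simp), e {0, 2} (by simp), e {0, 3} (by simp), e {0, 2, 3} (by simp),
    e {1, 2} (by simp), e {0, 1, 2} (by simp), e {1, 3} (by simp), e {0, 1, 3} (by simp)]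

theorem cv_cast (x y : ℚ) (u : Finset (Fin k)) :
    ((cvR hk x y u : ℚ) : ℝ) = cvR hk (x : ℝ) (y : ℝ) u := by
  have hd : ∀ S, ((dl1 hk ℚ u S : ℚ) : ℝ) = dl1 hk ℝ u S := by
    intro S
    unfold dl1
    split_ifs <;> simp
  unfold cvR gR fR
  push_cast
  simp only [hd]

theorem cv_empty (x y : ℚ) : cvR hk x y ∅ = 0 := by
  have hd : ∀ S : Finset (Fin 4), S.Nonempty → dl1 hk ℚ ∅ S = 0 := by
    intro S hS
    unfold dl1
    rw [if_neg]
    unfold mp
    rw [Finset.map_eq_empty]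
    exact hS.ne_empty
  unfold cvR gR fR
  rw [hd {0} (by simp), hd {1} (by simp), hd {2} (by simp), hd {3} (by simp), hd {0, 1} (by simp),
    hd {2, 3} (by simp), hd {0, 2} (by simp), hd {0, 3} (by simp), hd {0, 2, 3} (by simp),
    hd {1, 2} (by simp), hd {0, 1, 2} (by simp), hd {1, 3} (by simp), hd {0, 1, 3} (by simp)]
  ring

/-! ### the family of valid inequalities -/

theorem hh_mp {Ω T : Type} [Fintype Ω] [DecidableEq T] (p : Ω → ℝ) (X : Fin k → Ω → T)
    (S : Finset (Fin 4)) :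
    hh p X (mp hk S) = hh p (fun i : Fin 4 => X (Fin.castLE hk i)) S := by
  unfold hh
  congr 1
  refine Finset.sum_congr rfl fun ω _ => ?_
  congr 2
  refine Finset.sum_congr rfl fun ω' _ => ?_
  have hiff : (∀ i ∈ mp hk S, X i ω' = X i ω) ↔
      ∀ i ∈ S, X (Fin.castLE hk i) ω' = X (Fin.castLE hk i) ω := by
    unfold mp
    simp
  by_cases h : ∀ i ∈ S, X (Fin.castLE hk i) ω' = X (Fin.castLE hk i) ω
  · rw [if_pos (hiff.2 h), if_pos h]
  · rw [if_neg (fun h' => h (hiff.1 h')), if_neg h]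

theorem info_family (s : ℕ) : InfoIneq k
    (fun S => ((cvR hk (3 * (s : ℚ) + 2) (2 * (1 / 2) ^ s) S : ℚ) : ℝ)) := by
  classical
  intro m p hp hp1
  have e1 : ∀ S : Finset (Fin k), (∑ y : Fin k → Fin (m+1),
      (if ∀ i, i ∉ S → y i = 0 then
        Real.negMulLog (∑ z : Fin k → Fin (m+1), if (∀ i ∈ S, z i = y i) then p z else 0)
       else 0)) = hh p (fun (i : Fin k) (z : Fin k → Fin (m + 1)) => z i) S := by
    intro S
    have h1 := ent_push p (fun z : Fin k → Fin (m + 1) => z) S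
      (fun z : Fin k → Fin (m + 1) => fun i : S => z i.1)
      (by
        intro ω ω'
        constructor
        · intro h i hi
          exact congrFun h ⟨i, hi⟩
        · intro h
          funext i
          exact h i.1 i.2)
    have h2 : ∀ z : Fin k → Fin (m + 1), (∑ ω : Fin k → Fin (m + 1), if ω = z then p ω else 0) =
        p z := by
      intro z
      simp
    simp only [h2] at h1
    rw [h1]
    unfold Hf mg hh
    rw [← Finset.sum_neg_distrib]
    refine Finset.sum_congr rfl fun ω _ => ?_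
    rw [mul_neg]
    congr 3
    refine Finset.sum_congr rfl fun ω' _ => ?_
    have hiff : ((fun i : S => ω' i.1) = fun i : S => ω i.1) ↔ ∀ i ∈ S, ω' i = ω i := by
      constructor
      · intro h i hi
        exact congrFun h ⟨i, hi⟩
      · intro h
        funext i
        exact h i.1 i.2
    by_cases h : ∀ i ∈ S, ω' i = ω i
    · rw [if_pos (hiff.2 h), if_pos h]
    · rw [if_neg (fun h' => h (hiff.1 h')), if_neg h]
  simp only [e1, cv_cast]
  rw [sum_all]
  unfold Ev
  simp only [hh_mp]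
  have h5 := fam sm glue (Fin k → Fin (m + 1)) (Fin (m + 1)) p
    (fun i z => z (Fin.castLE hk i)) hp hp1 s
  push_cast
  linarith

/-! ### the example -/

/-- the binary variables of the example -/
def exB (i : Fin k) (ω : Fin 4) : Bool :=
  if h : i.val < 4 then decide (exX ⟨i.val, h⟩ ω = 1) else false

/-- integer weights of the example -/
def exW (M : ℕ) : Fin 4 → ℕ := ![(M - 1) ^ 2, M - 1, M - 1, 1]

theorem exW_pos {M : ℕ} (hM : 2 ≤ M) (ω : Fin 4) : 0 < exW M ω := by
  have h1 : 0 < M - 1 := by omega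
  fin_cases ω
  · exact pow_pos h1 2
  · exact h1
  · exact h1
  · exact Nat.one_pos

theorem exW_pr {M : ℕ} (hM : 2 ≤ M) : pr (exW M) = exP (1 / (M : ℝ)) := by
  obtain ⟨m, rfl⟩ : ∃ m, M = m + 1 := ⟨M - 1, by omega⟩
  have hs : ∑ ω, exW (m + 1) ω = (m + 1) ^ 2 := by
    rw [Fin.sum_univ_four]
    simp only [exW, Nat.add_sub_cancel]
    show m ^ 2 + m + m + 1 = (m + 1) ^ 2
    ring
  have hm : ((m : ℝ) + 1) ≠ 0 := by positivity
  funext ω
  unfold pr
  rw [hs]
  fin_cases ω
  · show (((m + 1 - 1) ^ 2 : ℕ) : ℝ) / (((m + 1) ^ 2 : ℕ) : ℝ) = (1 - 1 / ((m + 1 : ℕ) : ℝ)) ^ 2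
    rw [Nat.add_sub_cancel]
    push_cast
    field_simp
    ring
  · show ((m + 1 - 1 : ℕ) : ℝ) / (((m + 1) ^ 2 : ℕ) : ℝ) =
      1 / ((m + 1 : ℕ) : ℝ) * (1 - 1 / ((m + 1 : ℕ) : ℝ))
    rw [Nat.add_sub_cancel]
    push_cast
    field_simp
    ring
  · show ((m + 1 - 1 : ℕ) : ℝ) / (((m + 1) ^ 2 : ℕ) : ℝ) =
      1 / ((m + 1 : ℕ) : ℝ) * (1 - 1 / ((m + 1 : ℕ) : ℝ))
    rw [Nat.add_sub_cancel]
    push_cast
    field_simp
    ring
  · show ((1 : ℕ) : ℝ) / (((m + 1) ^ 2 : ℕ) : ℝ) = (1 / ((m + 1 : ℕ) : ℝ)) ^ 2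
    push_cast
    field_simp

theorem exB_iff (i : Fin 4) (ω ω' : Fin 4) :
    exB (k := k) (Fin.castLE hk i) ω = exB (Fin.castLE hk i) ω' ↔ exX i ω = exX i ω' := by
  unfold exB
  have h : (Fin.castLE hk i).val < 4 := i.2
  rw [dif_pos h, dif_pos h]
  have e : (⟨(Fin.castLE hk i).val, h⟩ : Fin 4) = i := Fin.ext rfl
  rw [e]
  fin_cases i <;> fin_cases ω <;> fin_cases ω' <;> decide

theorem ex_Hf (p : Fin 4 → ℝ) (S : Finset (Fin 4)) :
    Hf p (rho (exB (k := k)) (mp hk S)) = hh p exX S := by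
  classical
  unfold Hf mg hh
  rw [← Finset.sum_neg_distrib]
  refine Finset.sum_congr rfl fun ω _ => ?_
  rw [mul_neg]
  congr 3
  refine Finset.sum_congr rfl fun ω' _ => ?_
  have hiff : rho (exB (k := k)) (mp hk S) ω' = rho (exB (k := k)) (mp hk S) ω ↔
      ∀ i ∈ S, exX i ω' = exX i ω := by
    rw [rho_iff]
    unfold mp
    simp only [Finset.mem_map, Fin.castLEEmb_apply, forall_exists_index, and_imp,
      forall_apply_eq_imp_iff₂]
    constructor
    · intro h i hi
      exact (exB_iff hk i ω' ω).1 (h i hi)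
    · intro h i hi
      exact (exB_iff hk i ω' ω).2 (h i hi)
  by_cases h : ∀ i ∈ S, exX i ω' = exX i ω
  · rw [if_pos (hiff.2 h), if_pos h]
  · rw [if_neg (fun h' => h (hiff.1 h')), if_neg h]

end Pool.Agent.Helper78.KS
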