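import Pool.Agent.Helper78.KS.Tuple
import Pool.Graph.R_pool_sql_team_seeded_63374d34.N372.EN.Sm
import Pool.Graph.R_pool_sql_team_seeded_63374d34.N372.EN.Glue
import Pool.Graph.R_pool_sql_team_seeded_63374d34.N372.EN.Ex
import Pool.Graph.R_pool_sql_team_seeded_63374d34.N372.EN.Semi
import Pool.Graph.R_pool_sql_team_seeded_63374d34.N372.EN.Asm
import Pool.Graph.R_pool_sql_team_seeded_63374d34.N372.EN.Rec

/-!
The cone of linear inequalities for complexities of tuples is not semialgebraic for `k ≥ 4`.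
-/

set_option autoImplicit false

namespace Pool.Agent.Helper78.KS

open Finset Pool.Agent.Helper981.KP Pool.Agent.N372.EN

/-- the sub-tuple -/
def sbt {k : ℕ} (A : Fin k → List Bool) (u : Finset (Fin k)) : List (List Bool) :=
  ((List.finRange k).filter (fun i => decide (i ∈ u))).map A

/-- validity of an inequality up to a logarithmic term -/
def Vld (U : List Bool →. List Bool) (enc : List (List Bool) → List Bool) (k : ℕ)
    (lam : {u : Finset (Fin k) // u.Nonempty} → ℝ) : Prop :=
  ∃ c : ℝ, ∀ n : ℕ, 2 ≤ n → ∀ A : Fin k → List Bool, (∀ i, (A i).length ≤ n) →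
    -c * Real.log n ≤ ∑ u, lam u * (KPof U (enc (sbt A u.1)) : ℝ)

theorem lim_nonneg {a B D : ℝ} (h : ∀ N : ℕ, 2 ≤ N → 0 ≤ N * a + B * Real.log ((N : ℝ) + 1) + D) :
    0 ≤ a := by
  have t1 : Filter.Tendsto (fun x : ℝ => Real.log x ^ 1 / (1 * x + (-1))) Filter.atTop (nhds 0) :=
    Real.tendsto_pow_log_div_mul_add_atTop 1 (-1) 1 one_ne_zero
  have t2 : Filter.Tendsto (fun N : ℕ => (N : ℝ) + 1) Filter.atTop Filter.atTop :=
    Filter.tendsto_atTop_add_const_right _ _ tendsto_natCast_atTop_atTop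
  have t3 := t1.comp t2
  have t4 : Filter.Tendsto (fun N : ℕ => D / (N : ℝ)) Filter.atTop (nhds 0) :=
    tendsto_const_div_atTop_nhds_zero_nat D
  have t5 : Filter.Tendsto (fun N : ℕ => a + B * (Real.log ((N : ℝ) + 1) ^ 1 /
      (1 * ((N : ℝ) + 1) + (-1))) + D / (N : ℝ)) Filter.atTop (nhds (a + B * 0 + 0)) :=
    ((tendsto_const_nhds.add (t3.const_mul B))).add t4
  rw [mul_zero, add_zero, add_zero] at t5
  refine ge_of_tendsto t5 ?_
  filter_upwards [Filter.eventually_ge_atTop 2] with N hN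
  have hN' : (0 : ℝ) < N := by
    have : (2 : ℝ) ≤ N := by exact_mod_cast hN
    linarith
  have h1 := h N hN
  have h2 : a + B * (Real.log ((N : ℝ) + 1) ^ 1 / (1 * ((N : ℝ) + 1) + (-1))) + D / (N : ℝ) =
      (N * a + B * Real.log ((N : ℝ) + 1) + D) / N := by
    rw [show (1 * ((N : ℝ) + 1) + (-1)) = (N : ℝ) by ring, pow_one]
    field_simp
  rw [h2]
  exact div_nonneg h1 hN'.le

section
variable {U : List Bool →. List Bool} (hU : OptimalPF U)
  (enc : List (List Bool) → List Bool) (henc : Computable enc) (hinj : Function.Injective enc)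
include hU henc hinj

/-- A valid inequality holds for the entropies of binary variables with positive rational
probabilities. -/
theorem entropy_of_vld {k : ℕ} (lam : {u : Finset (Fin k) // u.Nonempty} → ℝ)
    (hval : Vld U enc k lam) {n0 : ℕ} (hn0 : 0 < n0) (X : Fin k → Fin n0 → Bool)
    (w : Fin n0 → ℕ) (hw : ∀ ω, 0 < w ω) :
    0 ≤ ∑ u, lam u * Hf (pr w) (rho X u.1) := by
  classical
  obtain ⟨c, hc⟩ := hval
  obtain ⟨c1, hc1⟩ := enc_equiv hU enc henc hinj
  have hK := isKP_of_optimal hU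
  set K : ℕ → ℕ := fun u => KPof U (ones u) with hKdef
  choose cu hcu using fun S : Finset (Fin k) => expected X w hK hw hn0 S
  have hM : 0 < ∑ ω, w ω :=
    lt_of_lt_of_le (hw ⟨0, hn0⟩) (Finset.single_le_sum (fun _ _ => Nat.zero_le _)
      (Finset.mem_univ _))
  have hM' : (0 : ℝ) < ((∑ ω, w ω : ℕ) : ℝ) := by exact_mod_cast hM
  have hp0 : ∀ ω, 0 < pr w ω := fun ω => by
    unfold pr
    have : (0 : ℝ) < w ω := by exact_mod_cast hw ω
    positivity
  have hp : ∑ ω, pr w ω = 1 := by
    unfold pr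
    rw [← Finset.sum_div, div_eq_one_iff_eq (by exact_mod_cast hM.ne')]
    push_cast
    rfl
  have hlog2 : 0 < Real.log 2 := Real.log_pos one_lt_two
  apply lim_nonneg (B := Real.log 2 * |c| + ∑ u : {u : Finset (Fin k) // u.Nonempty}, |lam u| * 2)
    (D := ∑ u : {u : Finset (Fin k) // u.Nonempty}, |lam u| * (|cu u.1| + Real.log 2 * c1))
  intro N hN
  set E : Finset (Fin k) → ℝ := fun S =>
    ∑ ω : Fin N → Fin n0, PP (pr w) ω * (K (cl (tup X S ω)) : ℝ) with hE
  have hPP0 : ∀ ω : Fin N → Fin n0, 0 < PP (pr w) ω :=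
    fun ω => Finset.prod_pos fun j _ => hp0 _
  -- pointwise
  have hpt : ∀ ω : Fin N → Fin n0, -c * Real.log N ≤
      ∑ u : {u : Finset (Fin k) // u.Nonempty}, (lam u * (K (cl (tup X u.1 ω)) : ℝ) +
        |lam u| * c1) := by
    intro ω
    have h1 := hc N hN (fun i => List.ofFn (fun j => X i (ω j))) (fun i => by simp)
    refine h1.trans (Finset.sum_le_sum fun u _ => ?_)
    have h2 := hc1 (tup X u.1 ω)
    have e : sbt (fun i => List.ofFn (fun j => X i (ω j))) u.1 = tup X u.1 ω := rfl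
    rw [e]
    have b1 : (KPof U (enc (tup X u.1 ω)) : ℝ) ≤ K (cl (tup X u.1 ω)) + c1 := by
      exact_mod_cast h2.1
    have b2 : (K (cl (tup X u.1 ω)) : ℝ) ≤ KPof U (enc (tup X u.1 ω)) + c1 := by
      exact_mod_cast h2.2
    have habs : |(KPof U (enc (tup X u.1 ω)) : ℝ) - K (cl (tup X u.1 ω))| ≤ c1 :=
      abs_le.2 ⟨by linarith, by linarith⟩
    have h3 : lam u * ((KPof U (enc (tup X u.1 ω)) : ℝ) - K (cl (tup X u.1 ω))) ≤
        |lam u| * c1 :=
      (le_abs_self _).trans (by rw [abs_mul]; exact mul_le_mul_of_nonneg_left habs (abs_nonneg _))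
    linarith
  have hexp : -c * Real.log N ≤
      ∑ u : {u : Finset (Fin k) // u.Nonempty}, (lam u * E u.1 + |lam u| * c1) := by
    have h1 : ∑ ω : Fin N → Fin n0, PP (pr w) ω * (-c * Real.log N) ≤
        ∑ ω : Fin N → Fin n0, PP (pr w) ω *
          ∑ u : {u : Finset (Fin k) // u.Nonempty}, (lam u * (K (cl (tup X u.1 ω)) : ℝ) +
            |lam u| * c1) :=
      Finset.sum_le_sum fun ω _ => mul_le_mul_of_nonneg_left (hpt ω) (hPP0 ω).le
    rw [← Finset.sum_mul, sum_PP hp, one_mul] at h1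
    refine h1.trans (le_of_eq ?_)
    calc ∑ ω : Fin N → Fin n0, PP (pr w) ω *
          ∑ u : {u : Finset (Fin k) // u.Nonempty}, (lam u * (K (cl (tup X u.1 ω)) : ℝ) +
            |lam u| * c1)
        = ∑ u : {u : Finset (Fin k) // u.Nonempty}, ∑ ω : Fin N → Fin n0,
            PP (pr w) ω * (lam u * (K (cl (tup X u.1 ω)) : ℝ) + |lam u| * c1) := by
          rw [Finset.sum_comm]
          refine Finset.sum_congr rfl fun ω _ => ?_
          rw [Finset.mul_sum]
      _ = _ := by
          refine Finset.sum_congr rfl fun u _ => ?_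
          rw [hE]
          simp only
          rw [Finset.mul_sum]
          rw [Finset.sum_congr rfl (g := fun ω : Fin N → Fin n0 =>
            lam u * (PP (pr w) ω * (K (cl (tup X u.1 ω)) : ℝ)) + PP (pr w) ω * (|lam u| * c1))
            (fun ω _ => by ring)]
          rw [Finset.sum_add_distrib, ← Finset.sum_mul, sum_PP hp, one_mul]
  have hterm : ∀ u : {u : Finset (Fin k) // u.Nonempty},
      Real.log 2 * (lam u * E u.1 + |lam u| * c1) ≤
        N * (lam u * Hf (pr w) (rho X u.1)) + |lam u| * 2 * Real.log ((N : ℝ) + 1) +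
          |lam u| * (|cu u.1| + Real.log 2 * c1) := by
    intro u
    obtain ⟨g1, g2⟩ := hcu u.1 N
    have hlogN : 0 ≤ Real.log ((N : ℝ) + 1) := Real.log_nonneg (by
      have : (0 : ℝ) ≤ N := Nat.cast_nonneg N
      linarith)
    have habs : |Real.log 2 * E u.1 - N * Hf (pr w) (rho X u.1)| ≤
        2 * Real.log ((N : ℝ) + 1) + |cu u.1| := by
      rw [abs_le]
      have := le_abs_self (cu u.1)
      have := abs_nonneg (cu u.1)
      constructor <;> linarith
    have h3 : lam u * (Real.log 2 * E u.1 - N * Hf (pr w) (rho X u.1)) ≤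
        |lam u| * (2 * Real.log ((N : ℝ) + 1) + |cu u.1|) :=
      (le_abs_self _).trans (by rw [abs_mul]; exact mul_le_mul_of_nonneg_left habs (abs_nonneg _))
    linarith
  have hfin := mul_le_mul_of_nonneg_left hexp hlog2.le
  rw [Finset.mul_sum] at hfin
  have hfin2 := hfin.trans (Finset.sum_le_sum fun u _ => hterm u)
  rw [Finset.sum_add_distrib, Finset.sum_add_distrib, ← Finset.mul_sum, ← Finset.sum_mul] at hfin2
  have hlogNN : Real.log N ≤ Real.log ((N : ℝ) + 1) := by
    apply Real.log_le_log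
    · have : (2 : ℝ) ≤ N := by exact_mod_cast hN
      linarith
    · linarith
  have hlogN0 : 0 ≤ Real.log N := Real.log_natCast_nonneg N
  have hcc : c * Real.log N ≤ |c| * Real.log ((N : ℝ) + 1) :=
    (mul_le_mul_of_nonneg_right (le_abs_self c) hlogN0).trans
      (mul_le_mul_of_nonneg_left hlogNN (abs_nonneg c))
  have hcc2 := mul_le_mul_of_nonneg_left hcc hlog2.le
  linarith

/-- Rational information inequalities are valid. -/
theorem vld_of_rat {k : ℕ} (q : Finset (Fin k) → ℚ) (hq0 : q ∅ = 0)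
    (h : InfoIneq k (fun S => (q S : ℝ))) :
    Vld U enc k (fun u => (q u.1 : ℝ)) := by
  classical
  obtain ⟨c, hc⟩ := rat_machine hU enc henc hinj k q h
  refine ⟨|c| / Real.log 2, fun n hn A _ => ?_⟩
  have h1 := hc A
  have hlog2 : 0 < Real.log 2 := Real.log_pos one_lt_two
  have hlog : Real.log 2 ≤ Real.log n := Real.log_le_log (by norm_num) (by exact_mod_cast hn)
  have h2 : -(|c| / Real.log 2) * Real.log n ≤ -c := by
    have h3 : |c| ≤ |c| / Real.log 2 * Real.log n := by
      rw [div_mul_eq_mul_div, le_div_iff₀ hlog2]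
      exact mul_le_mul_of_nonneg_left hlog (abs_nonneg c)
    have := le_abs_self c
    linarith
  refine h2.trans (h1.trans (le_of_eq ?_))
  have h4 : ∀ F : Finset (Fin k) → ℝ, F ∅ = 0 →
      ∑ S, F S = ∑ u : {u : Finset (Fin k) // u.Nonempty}, F u.1 := by
    intro F hF
    rw [← Finset.sum_filter_add_sum_filter_not Finset.univ (fun S : Finset (Fin k) => S.Nonempty)]
    have h5 : ∑ S ∈ Finset.univ.filter (fun S : Finset (Fin k) => ¬ S.Nonempty), F S = 0 := by
      refine Finset.sum_eq_zero fun S hS => ?_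
      have := (Finset.mem_filter.1 hS).2
      rw [Finset.not_nonempty_iff_eq_empty] at this
      rw [this, hF]
    rw [h5, add_zero]
    exact (Finset.sum_subtype_eq_sum_filter (p := fun S : Finset (Fin k) => S.Nonempty)
      (s := Finset.univ) F).symm.trans (by simp)
  exact h4 _ (by simp [hq0])

end

end Pool.Agent.Helper78.KS
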