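import Pool.Agent.Helper96.KS.Parts

/-!
# Closed sets with few vertices (parts F0 and F1 of KS)
-/

set_option autoImplicit false

open Finset

namespace KS.F0_78

open scoped Classical

open Inst

variable {K : ℕ}

/-- a closed set of `2 b` half-edges is listed by `b` pairs -/
lemma exists_pairs {I : Inst K} {η : I.H → I.H} (h1 : ∀ x, η (η x) = x) (h2 : ∀ x, η x ≠ x) :
    ∀ (b : ℕ) (S : Finset I.H), (∀ h ∈ S, η h ∈ S) → S.card = 2 * b →
      ∃ x y : Fin b → I.H, Function.Injective (Sum.elim x y) ∧ (∀ i, η (x i) = y i) ∧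
        univ.image x ∪ univ.image y = S := by
  intro b
  induction b with
  | zero =>
    intro S _ hc
    have hS : S = ∅ := by
      rw [← card_eq_zero]; omega
    subst hS
    refine ⟨Fin.elim0, Fin.elim0, ?_, fun i => i.elim0, by simp⟩
    intro a
    rcases a with i | i <;> exact i.elim0
  | succ b ih =>
    intro S hS hc
    have hne : S.Nonempty := by
      rw [← card_pos]; omega
    obtain ⟨h, hh⟩ := hne
    set S' : Finset I.H := (S.erase h).erase (η h) with hS'
    have hmem : ∀ z, z ∈ S' ↔ z ∈ S ∧ z ≠ h ∧ z ≠ η h := by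
      intro z
      rw [hS', mem_erase, mem_erase]
      tauto
    have hcard : S'.card = 2 * b := by
      rw [hS', card_erase_of_mem (by rw [mem_erase]; exact ⟨h2 h, hS h hh⟩), card_erase_of_mem hh]
      omega
    obtain ⟨x, y, hinj, hxy, him⟩ := ih S' (by
      intro z hz
      rw [hmem] at hz ⊢
      refine ⟨hS z hz.1, ?_, ?_⟩
      · intro h3
        exact hz.2.2 (by rw [← h3, h1])
      · intro h3
        exact hz.2.1 (by rw [← h1 z, h3, h1])) hcard
    have hxS : ∀ i, x i ∈ S' := by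
      intro i
      rw [← him, mem_union]
      exact Or.inl (mem_image_of_mem _ (mem_univ i))
    have hyS : ∀ i, y i ∈ S' := by
      intro i
      rw [← him, mem_union]
      exact Or.inr (mem_image_of_mem _ (mem_univ i))
    have hxi : Function.Injective x := fun i j hij =>
      Sum.inl_injective (@hinj (Sum.inl i) (Sum.inl j) hij)
    have hyi : Function.Injective y := fun i j hij =>
      Sum.inr_injective (@hinj (Sum.inr i) (Sum.inr j) hij)
    have hxyne : ∀ i j, x i ≠ y j := fun i j hij =>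
      absurd (@hinj (Sum.inl i) (Sum.inr j) hij) (by simp)
    have hx1 : ∀ i, x i ≠ h := fun i => ((hmem _).mp (hxS i)).2.1
    have hx2 : ∀ i, x i ≠ η h := fun i => ((hmem _).mp (hxS i)).2.2
    have hy1 : ∀ i, y i ≠ h := fun i => ((hmem _).mp (hyS i)).2.1
    have hy2 : ∀ i, y i ≠ η h := fun i => ((hmem _).mp (hyS i)).2.2
    refine ⟨Fin.cons h x, Fin.cons (η h) y, ?_, ?_, ?_⟩
    · intro p q hpq
      rcases p with i | i <;> rcases q with j | j <;>
        simp only [Sum.elim_inl, Sum.elim_inr] at hpq <;>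
        induction i using Fin.cases <;> induction j using Fin.cases <;>
        simp only [Fin.cons_zero, Fin.cons_succ] at hpq
      · rfl
      · exact absurd hpq.symm (hx1 _)
      · exact absurd hpq (hx1 _)
      · rw [hxi hpq]
      · exact absurd hpq.symm (h2 h)
      · exact absurd hpq.symm (hy1 _)
      · exact absurd hpq (hx2 _)
      · exact absurd hpq (hxyne _ _)
      · exact absurd hpq (h2 h)
      · exact absurd hpq.symm (hx2 _)
      · exact absurd hpq (hy1 _)
      · exact absurd hpq.symm (hxyne _ _)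
      · rfl
      · exact absurd hpq.symm (hy2 _)
      · exact absurd hpq (hy2 _)
      · rw [hyi hpq]
    · intro i
      induction i using Fin.cases with
      | zero => rfl
      | succ i => exact hxy i
    · ext z
      have h5 : z ∈ univ.image x ∪ univ.image y ↔ z ∈ S' := by rw [him]
      rw [mem_union, mem_image, mem_image, hmem] at h5
      rw [mem_union, mem_image, mem_image]
      constructor
      · rintro (⟨i, _, rfl⟩ | ⟨i, _, rfl⟩)
        · induction i using Fin.cases with
          | zero => exact hh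
          | succ i => exact ((hmem _).mp (hxS i)).1
        · induction i using Fin.cases with
          | zero => exact hS h hh
          | succ i => exact ((hmem _).mp (hyS i)).1
      · intro hz
        by_cases h6 : z = h
        · exact Or.inl ⟨0, mem_univ _, h6.symm⟩
        · by_cases h7 : z = η h
          · exact Or.inr ⟨0, mem_univ _, h7.symm⟩
          · rcases h5.mpr ⟨hz, h6, h7⟩ with ⟨i, _, hi⟩ | ⟨i, _, hi⟩
            · exact Or.inl ⟨i.succ, mem_univ _, hi⟩
            · exact Or.inr ⟨i.succ, mem_univ _, hi⟩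

/-- the half-edges at `a` given vertices -/
lemma card_at {Δ : ℕ} {I : Inst K} (hI : I.Valid Δ) (a : ℕ) (W : Fin a → Fin I.n) :
    (univ.filter fun h : I.H => ∃ i, h.1 = W i).card ≤ a * Δ := by
  have h1 : (univ.filter fun h : I.H => ∃ i, h.1 = W i) ⊆
      (univ : Finset (Fin a)).biUnion fun i => univ.filter fun h : I.H => h.1 = W i := by
    intro h hh
    rw [mem_filter] at hh
    obtain ⟨i, hi⟩ := hh.2
    rw [mem_biUnion]
    exact ⟨i, mem_univ i, mem_filter.mpr ⟨mem_univ _, hi⟩⟩
  refine (card_le_card h1).trans (card_biUnion_le.trans ?_)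
  calc ∑ i : Fin a, (univ.filter fun h : I.H => h.1 = W i).card ≤ ∑ _i : Fin a, Δ := by
        refine sum_le_sum fun i _ => ?_
        have h2 : (univ.filter fun h : I.H => h.1 = W i) ⊆
            (univ : Finset (Fin (I.d (W i)))).image fun j => (⟨W i, j⟩ : I.H) := by
          rintro ⟨v, j⟩ hh
          rw [mem_filter] at hh
          obtain ⟨_, rfl⟩ := hh
          exact mem_image_of_mem _ (mem_univ j)
        calc _ ≤ _ := card_le_card h2
          _ ≤ (univ : Finset (Fin (I.d (W i)))).card := card_image_le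
          _ = I.d (W i) := by simp
          _ ≤ Δ := hI.dΔ _
    _ = a * Δ := by simp

lemma n_le_N {Δ : ℕ} {I : Inst K} (hI : I.Valid Δ) : I.n ≤ I.N := by
  have h1 : I.N = ∑ v : Fin I.n, I.d v := by
    unfold Inst.N
    rw [Fintype.card_sigma]
    simp
  rw [h1]
  calc I.n = ∑ _v : Fin I.n, 1 := by simp
    _ ≤ ∑ v : Fin I.n, I.d v := sum_le_sum fun v _ => (by have := hI.d3 v; omega)

lemma n_pos {Δ : ℕ} {I : Inst K} (hI : I.Valid Δ) : 0 < I.n := by
  rcases Nat.eq_zero_or_pos I.n with h | h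
  · exfalso
    have h1 : I.N = ∑ v : Fin I.n, I.d v := by
      unfold Inst.N
      rw [Fintype.card_sigma]
      simp
    have h2 := hI.npos
    have : IsEmpty (Fin I.n) := by rw [h]; infer_instance
    rw [h1, univ_eq_empty, sum_empty] at h2
    exact lt_irrefl _ h2
  · exact h

/-- pairs of lists of half-edges at few vertices -/
noncomputable def PP (I : Inst K) (a b : ℕ) : Finset ((Fin b → I.H) × (Fin b → I.H)) :=
  univ.filter fun q => Function.Injective (Sum.elim q.1 q.2) ∧
    (Vs (univ.image q.1 ∪ univ.image q.2)).card ≤ a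

lemma card_PP {Δ : ℕ} {I : Inst K} (hI : I.Valid Δ) (a b : ℕ) :
    (PP I a b).card ≤ I.n ^ a * ((a * Δ) ^ b * (a * Δ) ^ b) := by
  have hn : Nonempty (Fin I.n) := ⟨⟨0, n_pos hI⟩⟩
  set U : (Fin a → Fin I.n) → Finset I.H := fun W => univ.filter fun h => ∃ i, h.1 = W i with hU
  have hsub : PP I a b ⊆ (univ : Finset (Fin a → Fin I.n)).biUnion fun W =>
      (Fintype.piFinset fun _ : Fin b => U W) ×ˢ (Fintype.piFinset fun _ : Fin b => U W) := by
    intro q hq
    rw [PP, mem_filter] at hq
    set T := Vs (univ.image q.1 ∪ univ.image q.2) with hT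
    have hTa : T.card ≤ a := hq.2.2
    obtain ⟨W, hW⟩ : ∃ W : Fin a → Fin I.n, ∀ v ∈ T, ∃ i, v = W i := by
      refine ⟨fun i => if h : (i : ℕ) < T.card then (T.equivFin.symm ⟨i, h⟩ : Fin I.n)
        else Classical.choice hn, fun v hv => ?_⟩
      have h3 : ((T.equivFin ⟨v, hv⟩ : Fin T.card) : ℕ) < T.card := (T.equivFin ⟨v, hv⟩).2
      refine ⟨⟨(T.equivFin ⟨v, hv⟩ : Fin T.card), h3.trans_le hTa⟩, ?_⟩
      simp [h3]
    rw [mem_biUnion]
    refine ⟨W, mem_univ _, ?_⟩
    rw [mem_product, Fintype.mem_piFinset, Fintype.mem_piFinset]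
    constructor
    · intro i
      rw [hU, mem_filter]
      exact ⟨mem_univ _, hW _ (mem_image_of_mem _ (mem_union_left _
        (mem_image_of_mem _ (mem_univ i))))⟩
    · intro i
      rw [hU, mem_filter]
      exact ⟨mem_univ _, hW _ (mem_image_of_mem _ (mem_union_right _
        (mem_image_of_mem _ (mem_univ i))))⟩
  refine (card_le_card hsub).trans (card_biUnion_le.trans ?_)
  calc _ ≤ ∑ _W : Fin a → Fin I.n, (a * Δ) ^ b * (a * Δ) ^ b := by
        refine sum_le_sum fun W _ => ?_
        rw [card_product, Fintype.card_piFinset]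
        have h4 : ∏ _i : Fin b, (U W).card ≤ (a * Δ) ^ b := by
          rw [prod_const, card_univ, Fintype.card_fin]
          exact Nat.pow_le_pow_left (card_at hI a W) b
        exact Nat.mul_le_mul h4 h4
    _ = I.n ^ a * ((a * Δ) ^ b * (a * Δ) ^ b) := by simp

theorem main (hM : S_MULT) : KS.S_F0 := by
  intro K Δ I hI a b hN
  have hN0 : (0 : ℝ) < I.N := by exact_mod_cast hI.npos
  have hstep : ∀ η ∈ I.Om, (univ.filter fun S : Finset I.H => (∀ h ∈ S, η h ∈ S) ∧
      S.card = 2 * b ∧ (Vs S).card ≤ a).card ≤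
      ((PP I a b).filter fun q => ∀ i, η (q.1 i) = q.2 i).card := by
    intro η hη
    have hη' := (mem_filter.mp hη).2
    have hex : ∀ S ∈ (univ.filter fun S : Finset I.H => (∀ h ∈ S, η h ∈ S) ∧
        S.card = 2 * b ∧ (Vs S).card ≤ a), ∃ q : (Fin b → I.H) × (Fin b → I.H),
        q ∈ ((PP I a b).filter fun q => ∀ i, η (q.1 i) = q.2 i) ∧
        univ.image q.1 ∪ univ.image q.2 = S := by
      intro S hS
      rw [mem_filter] at hS
      obtain ⟨x, y, hinj, hxy, him⟩ := exists_pairs hη'.1 hη'.2.1 b S hS.2.1 hS.2.2.1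
      refine ⟨(x, y), ?_, him⟩
      rw [mem_filter, PP, mem_filter]
      exact ⟨⟨mem_univ _, hinj, by rw [him]; exact hS.2.2.2⟩, hxy⟩
    have : Nonempty I.H := Fintype.card_pos_iff.mp hI.npos
    choose! F hF using hex
    refine card_le_card_of_injOn F (fun S hS => (hF S hS).1) ?_
    intro S hS S' hS' hSS
    rw [← (hF S hS).2, hSS, (hF S' hS').2]
  have h1 : (∑ η ∈ I.Om, ((univ.filter fun S : Finset I.H => (∀ h ∈ S, η h ∈ S) ∧
      S.card = 2 * b ∧ (Vs S).card ≤ a).card : ℝ)) ≤
      ∑ η ∈ I.Om, (((PP I a b).filter fun q => ∀ i, η (q.1 i) = q.2 i).card : ℝ) :=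
    sum_le_sum fun η hη => by exact_mod_cast hstep η hη
  have h2 : (∑ η ∈ I.Om, (((PP I a b).filter fun q => ∀ i, η (q.1 i) = q.2 i).card : ℝ)) =
      ∑ q ∈ PP I a b, ((I.Om.filter fun η => ∀ i, η (q.1 i) = q.2 i).card : ℝ) := by
    simp_rw [card_filter, Nat.cast_sum]
    exact sum_comm
  have h3 : ∑ q ∈ PP I a b, ((I.Om.filter fun η => ∀ i, η (q.1 i) = q.2 i).card : ℝ) ≤
      ∑ _q ∈ PP I a b, (I.Om.card : ℝ) * (3 * K / I.N) ^ b := by
    refine sum_le_sum fun q hq => ?_
    rw [PP, mem_filter] at hq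
    exact hM K Δ I hI b hN q.1 q.2 hq.2.1
  rw [sum_const, nsmul_eq_mul] at h3
  have h4 : ((PP I a b).card : ℝ) ≤ (I.N : ℝ) ^ a * ((a : ℝ) * Δ) ^ (2 * b) := by
    have h5 : (PP I a b).card ≤ I.N ^ a * ((a * Δ) ^ b * (a * Δ) ^ b) :=
      (card_PP hI a b).trans (Nat.mul_le_mul_right _ (Nat.pow_le_pow_left (n_le_N hI) a))
    calc ((PP I a b).card : ℝ) ≤ ((I.N ^ a * ((a * Δ) ^ b * (a * Δ) ^ b) : ℕ) : ℝ) := by
          exact_mod_cast h5
      _ = (I.N : ℝ) ^ a * ((a : ℝ) * Δ) ^ (2 * b) := by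
          push_cast
          ring
  have h0 : (0 : ℝ) ≤ (I.Om.card : ℝ) * (3 * K / I.N) ^ b := by positivity
  calc _ ≤ _ := h1
    _ = _ := h2
    _ ≤ _ := h3
    _ ≤ ((I.N : ℝ) ^ a * ((a : ℝ) * Δ) ^ (2 * b)) * ((I.Om.card : ℝ) * (3 * K / I.N) ^ b) :=
        mul_le_mul_of_nonneg_right h4 h0
    _ = I.Om.card * ((I.N : ℝ) ^ a * ((a : ℝ) * Δ) ^ (2 * b) * (3 * K / I.N) ^ b) := by ring

end KS.F0_78
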