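import Pool.Agent.Helper78.KS.F0

/-!
# Tangles are rare (part F1 of KS)
-/

set_option autoImplicit false

open Finset

namespace KS.F1_78

open scoped Classical

open Inst

variable {K : ℕ}

lemma even_card {I : Inst K} {η : I.H → I.H} (h1 : ∀ x, η (η x) = x) (h2 : ∀ x, η x ≠ x)
    (S : Finset I.H) (hS : ∀ h ∈ S, η h ∈ S) : Even S.card := by
  induction hn : S.card using Nat.strong_induction_on generalizing S with
  | _ n ih =>
    subst hn
    rcases S.eq_empty_or_nonempty with h | ⟨h, hh⟩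
    · subst h
      simp
    · set S' : Finset I.H := (S.erase h).erase (η h) with hS'
      have hm : η h ∈ S.erase h := by
        rw [mem_erase]; exact ⟨h2 h, hS h hh⟩
      have hc : S'.card + 2 = S.card := by
        rw [hS', card_erase_of_mem hm, card_erase_of_mem hh]
        have h3 : 1 < S.card := by
          have := card_pos.mpr ⟨_, hm⟩
          rw [card_erase_of_mem hh] at this
          omega
        omega
      have h4 := ih S'.card (by omega) S' (by
        intro z hz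
        rw [hS', mem_erase, mem_erase] at hz ⊢
        refine ⟨?_, ?_, hS z hz.2.2⟩
        · intro h5
          exact hz.2.1 (by rw [← h1 z, h5, h1])
        · intro h5
          exact hz.1 (by rw [← h5, h1])) rfl
      rw [← hc]
      exact h4.add (by decide)

theorem main (hF : S_F0) : KS.S_F1 := by
  intro K Δ I hI L hN
  have hN0 : (0 : ℝ) < I.N := by exact_mod_cast hI.npos
  have hK : 2 ≤ K := hI.hK
  have hΔ : 3 ≤ Δ := (hI.d3 ⟨0, F0_78.n_pos hI⟩).trans (hI.dΔ _)
  set Q : ℕ → (I.H → I.H) → Finset (Finset I.H) := fun b η =>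
    univ.filter fun S : Finset I.H => (∀ h ∈ S, η h ∈ S) ∧ S.card = 2 * (b + 1) ∧
      (Vs S).card ≤ b with hQ
  -- every tangle contributes
  have h1 : ((I.Om.filter fun η => Tangle L η).card : ℝ) ≤
      ∑ η ∈ I.Om, ∑ b ∈ (range (L + 1)).filter (fun b => 2 * (b + 1) ≤ L),
        ((Q b η).card : ℝ) := by
    rw [card_filter, Nat.cast_sum]
    refine sum_le_sum fun η hη => ?_
    have hη' := (mem_filter.mp hη).2
    split_ifs with hT
    · obtain ⟨S, hS, hc, hV⟩ := hT
      obtain ⟨b', hb'⟩ := even_card hη'.1 hη'.2.1 S hS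
      have hb0 : 1 ≤ b' := by omega
      obtain ⟨b, rfl⟩ : ∃ b, b' = b + 1 := ⟨b' - 1, by omega⟩
      have hmem : b ∈ (range (L + 1)).filter (fun b => 2 * (b + 1) ≤ L) := by
        rw [mem_filter, mem_range]
        omega
      have hpos : (1 : ℝ) ≤ (Q b η).card := by
        have : 0 < (Q b η).card := card_pos.mpr ⟨S, by
          rw [hQ, mem_filter]
          exact ⟨mem_univ _, hS, by omega, by omega⟩⟩
        exact_mod_cast this
      rw [Nat.cast_one]
      exact hpos.trans (single_le_sum (f := fun b => ((Q b η).card : ℝ))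
        (fun i _ => Nat.cast_nonneg _) hmem)
    · rw [Nat.cast_zero]
      exact sum_nonneg fun i _ => Nat.cast_nonneg _
  rw [sum_comm] at h1
  have hbase : (1 : ℝ) ≤ 3 * K * Δ * (L + 1) := by
    have h2 : (2 : ℝ) ≤ K := by exact_mod_cast hK
    have h3 : (3 : ℝ) ≤ Δ := by exact_mod_cast hΔ
    have h4 : (0 : ℝ) ≤ L := Nat.cast_nonneg _
    nlinarith [mul_nonneg (by linarith : (0 : ℝ) ≤ K) (by linarith : (0 : ℝ) ≤ Δ),
      mul_nonneg (mul_nonneg (by linarith : (0 : ℝ) ≤ K) (by linarith : (0 : ℝ) ≤ Δ)) h4]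
  have h2 : ∀ b ∈ (range (L + 1)).filter (fun b => 2 * (b + 1) ≤ L),
      ∑ η ∈ I.Om, ((Q b η).card : ℝ) ≤ I.Om.card * ((3 * K * Δ * (L + 1)) ^ L / I.N) := by
    intro b hb
    rw [mem_filter] at hb
    have h3 := hF K Δ I hI b (b + 1) (by
      have : 4 * K * (2 * (b + 1) + 2) ≤ 4 * K * (L + 2) := Nat.mul_le_mul_left _ (by omega)
      omega)
    refine h3.trans (mul_le_mul_of_nonneg_left ?_ (Nat.cast_nonneg _))
    have hbL : (b : ℝ) ≤ L + 1 := by
      have : b ≤ L + 1 := by omega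
      exact_mod_cast this
    have hK1 : (1 : ℝ) ≤ 3 * K := by
      have h2 : (2 : ℝ) ≤ K := by exact_mod_cast hK
      linarith
    have hb0 : (0 : ℝ) ≤ b := Nat.cast_nonneg _
    have hΔ0 : (0 : ℝ) ≤ Δ := Nat.cast_nonneg _
    have h5 : (I.N : ℝ) ^ b * ((b : ℝ) * Δ) ^ (2 * (b + 1)) * (3 * K / I.N) ^ (b + 1) =
        (((b : ℝ) * Δ) ^ (2 * (b + 1)) * (3 * K) ^ (b + 1)) / I.N := by
      rw [div_pow, pow_succ (I.N : ℝ) b]
      field_simp
    rw [h5]
    refine div_le_div_of_nonneg_right ?_ hN0.le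
    calc ((b : ℝ) * Δ) ^ (2 * (b + 1)) * (3 * K) ^ (b + 1)
        ≤ ((L + 1 : ℝ) * Δ) ^ (2 * (b + 1)) * (3 * K) ^ (2 * (b + 1)) := by
          refine mul_le_mul (pow_le_pow_left₀ (by positivity)
            (mul_le_mul_of_nonneg_right hbL hΔ0) _) (pow_le_pow_right₀ hK1 (by omega))
            (by positivity) (by positivity)
      _ = (3 * K * Δ * (L + 1)) ^ (2 * (b + 1)) := by rw [← mul_pow]; ring
      _ ≤ (3 * K * Δ * (L + 1)) ^ L := pow_le_pow_right₀ hbase hb.2
  have h6 : (∑ b ∈ (range (L + 1)).filter (fun b => 2 * (b + 1) ≤ L),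
      ∑ η ∈ I.Om, ((Q b η).card : ℝ)) ≤
      ((L : ℝ) + 1) * (I.Om.card * ((3 * K * Δ * (L + 1)) ^ L / I.N)) := by
    refine (sum_le_sum h2).trans ?_
    rw [sum_const, nsmul_eq_mul]
    refine mul_le_mul_of_nonneg_right ?_ (by positivity)
    have h7 : ((range (L + 1)).filter (fun b => 2 * (b + 1) ≤ L)).card ≤ L + 1 :=
      (card_filter_le _ _).trans (by simp)
    exact_mod_cast h7
  calc _ ≤ _ := h1
    _ ≤ _ := h6
    _ = I.Om.card * (((L : ℝ) + 1) * (3 * K * Δ * (L + 1)) ^ L / I.N) := by ring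

end KS.F1_78
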