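import Pool.Agent.Helper78.KS.Asm

/-!
The example with rational probabilities, and the final assembly.
-/

set_option autoImplicit false

namespace Pool.Agent.Helper78.KS

open Finset Pool.Agent.Helper981.KP Pool.Agent.N372.EN

theorem ex_rat (K : ℝ) : ∃ M : ℕ, 2 ≤ M ∧
    K * gI (hh (exP (1 / (M : ℝ))) exX) < fI (hh (exP (1 / (M : ℝ))) exX) := by
  obtain ⟨M, hM⟩ := exists_nat_ge (Real.exp (6 * |K| + 3))
  have hK : 0 ≤ |K| := abs_nonneg K
  have hexp : (2 : ℝ) ≤ Real.exp (6 * |K| + 3) := by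
    have := Real.add_one_le_exp (6 * |K| + 3)
    linarith
  have hM2 : (2 : ℝ) ≤ M := hexp.trans hM
  refine ⟨M, by exact_mod_cast hM2, ?_⟩
  obtain ⟨t, ht⟩ : ∃ t, t = 1 / (M : ℝ) := ⟨_, rfl⟩
  have h0 : 0 < t := by rw [ht]; positivity
  have hl : Real.log t ≤ -(6 * |K| + 3) := by
    rw [ht, one_div, Real.log_inv]
    have := Real.log_le_log (Real.exp_pos _) hM
    rw [Real.log_exp] at this
    linarith
  have h12 : t ≤ 1 / 2 := by
    rw [ht]
    exact one_div_le_one_div_of_le (by norm_num) hM2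
  have h1 : t < 1 := by linarith
  obtain ⟨hf, hg⟩ := ex_vals t h0 h1
  rw [← ht]
  rw [hf, hg]
  have ht1 : 0 < 1 - t := by linarith
  have ht2 : 0 < 1 + t := by linarith
  have ht3 : 0 < 2 - t := by linarith
  -- logarithms
  have m1 : Real.log (1 - t) ≤ -t := by
    have := Real.log_le_sub_one_of_pos ht1
    linarith
  have m2 : -(t / (1 - t)) ≤ Real.log (1 - t) := by
    have h3 := Real.one_sub_inv_le_log_of_pos ht1
    have h4 : 1 - (1 - t)⁻¹ = -(t / (1 - t)) := by field_simp; ring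
    linarith
  have n1 : Real.log (1 + t) ≤ t := by
    have := Real.log_le_sub_one_of_pos ht2
    linarith
  have n2 : t / (1 + t) ≤ Real.log (1 + t) := by
    have h3 := Real.one_sub_inv_le_log_of_pos ht2
    have h4 : 1 - (1 + t)⁻¹ = t / (1 + t) := by field_simp; ring
    linarith
  have hq : Real.log (2 - t) = Real.log 2 + Real.log (1 - t / 2) := by
    rw [← Real.log_mul (by norm_num) (by linarith)]
    congr 1
    ring
  have q1 : Real.log (2 - t) ≤ Real.log 2 - t / 2 := by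
    have := Real.log_le_sub_one_of_pos (show 0 < 1 - t / 2 by linarith)
    linarith
  have q2 : Real.log 2 - t / (2 - t) ≤ Real.log (2 - t) := by
    have h3 := Real.one_sub_inv_le_log_of_pos (show 0 < 1 - t / 2 by linarith)
    have h4 : 1 - (1 - t / 2)⁻¹ = -(t / (2 - t)) := by
      have h5 : (1 - t / 2 : ℝ) ≠ 0 := by linarith
      rw [show (1 - t / 2 : ℝ) = (2 - t) / 2 by ring, inv_div]
      field_simp
      ring
    linarith
  have b1 : Real.log 2 ≤ 0.7 := by
    have := Real.log_two_lt_d9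
    linarith
  have b2 : 0.6 ≤ Real.log 2 := by
    have := Real.log_two_gt_d9
    linarith
  obtain ⟨m, hm⟩ : ∃ m, m = Real.log (1 - t) := ⟨_, rfl⟩
  obtain ⟨n, hn⟩ : ∃ n, n = Real.log (1 + t) := ⟨_, rfl⟩
  obtain ⟨q, hq'⟩ : ∃ q, q = Real.log (2 - t) := ⟨_, rfl⟩
  obtain ⟨b, hb⟩ : ∃ b, b = Real.log 2 := ⟨_, rfl⟩
  rw [← hm] at m1 m2
  rw [← hn] at n1 n2
  rw [← hq', ← hb] at q1 q2
  rw [← hb] at b1 b2
  rw [← hm, ← hn, ← hq', ← hb]
  -- the products
  have a1 : (1 - t) ^ 2 * m ≤ (1 - t) ^ 2 * (-t) := mul_le_mul_of_nonneg_left m1 (by positivity)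
  have a2 : -(t * (1 - t)) ≤ (1 - t) ^ 2 * m := by
    have h3 := mul_le_mul_of_nonneg_left m2 (show 0 ≤ (1 - t) ^ 2 by positivity)
    have h4 : (1 - t) ^ 2 * -(t / (1 - t)) = -(t * (1 - t)) := by field_simp
    linarith
  have a3 : (1 - t ^ 2) * n ≤ (1 - t ^ 2) * t :=
    mul_le_mul_of_nonneg_left n1 (by nlinarith)
  have a4 : t * (1 - t) ≤ (1 - t ^ 2) * n := by
    have h3 := mul_le_mul_of_nonneg_left n2 (show 0 ≤ 1 - t ^ 2 by nlinarith)
    have h4 : (1 - t ^ 2) * (t / (1 + t)) = t * (1 - t) := by field_simp; ring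
    linarith
  have a5 : t * (1 - t) * m ≤ t * (1 - t) * (-t) := mul_le_mul_of_nonneg_left m1 (by positivity)
  have a6 : -(t ^ 2) ≤ t * (1 - t) * m := by
    have h3 := mul_le_mul_of_nonneg_left m2 (show 0 ≤ t * (1 - t) by positivity)
    have h4 : t * (1 - t) * -(t / (1 - t)) = -(t ^ 2) := by field_simp
    linarith
  have a7 : t * (2 - t) * q ≤ t * (2 - t) * (b - t / 2) :=
    mul_le_mul_of_nonneg_left q1 (by positivity)
  have a8 : t * (2 - t) * b - t ^ 2 ≤ t * (2 - t) * q := by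
    have h3 := mul_le_mul_of_nonneg_left q2 (show 0 ≤ t * (2 - t) by positivity)
    have h4 : t * (2 - t) * (b - t / (2 - t)) = t * (2 - t) * b - t ^ 2 := by field_simp
    linarith
  have t2 : 0 < t ^ 2 := by positivity
  have t3 : 0 < t ^ 3 := by positivity
  have t32 : t ^ 3 ≤ t ^ 2 / 2 := by nlinarith
  obtain ⟨g, hgd⟩ : ∃ g, g = (1 - t) ^ 2 * m + (1 - t ^ 2) * n +
    2 * (-(t * (1 - t) * m) + t * (2 - t) * q - 2 * t * (1 - t) * b) := ⟨_, rfl⟩
  rw [← hgd]
  have tb1 : t ^ 2 * b ≤ t ^ 2 * 0.7 := mul_le_mul_of_nonneg_left b1 t2.le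
  have tb2 : t ^ 2 * 0.6 ≤ t ^ 2 * b := mul_le_mul_of_nonneg_left b2 t2.le
  have g0 : 0 ≤ g := by
    rw [hgd]
    linarith
  have g6 : g ≤ 6 * t ^ 2 := by
    rw [hgd]
    linarith
  have hKg : K * g ≤ |K| * (6 * t ^ 2) := by
    calc K * g ≤ |K| * g := mul_le_mul_of_nonneg_right (le_abs_self K) g0
      _ ≤ |K| * (6 * t ^ 2) := mul_le_mul_of_nonneg_left g6 hK
  have h7 : 0 ≤ |K| * t ^ 2 := by positivity
  have h8 : t ^ 2 * Real.log t ≤ t ^ 2 * (-(6 * |K| + 3)) := mul_le_mul_of_nonneg_left hl t2.le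
  linarith

/-! ### the substitution -/

/-- affine substitution of the two parameters -/
noncomputable def Sb {k : ℕ} (hk : 4 ≤ k) :
    MvPolynomial {u : Finset (Fin k) // u.Nonempty} ℝ →ₐ[ℝ] Polynomial (Polynomial ℝ) :=
  MvPolynomial.aeval fun u =>
    Polynomial.C (Polynomial.C (gR (dl1 hk ℝ u.1)) * Polynomial.X -
      Polynomial.C (fR (dl1 hk ℝ u.1))) +
    Polynomial.C (Polynomial.C (dl1 hk ℝ u.1 {1})) * Polynomial.X

theorem eval_Sb {k : ℕ} (hk : 4 ≤ k) (x y : ℝ)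
    (q : MvPolynomial {u : Finset (Fin k) // u.Nonempty} ℝ) :
    Polynomial.evalEval x y (Sb hk q) = MvPolynomial.eval (fun u => cvR hk x y u.1) q := by
  have h1 : (Polynomial.evalEvalRingHom x y).comp (Sb hk).toRingHom =
      MvPolynomial.eval (fun u : {u : Finset (Fin k) // u.Nonempty} => cvR hk x y u.1) := by
    refine MvPolynomial.ringHom_ext (fun r => ?_) fun u => ?_
    · rw [RingHom.comp_apply, MvPolynomial.eval_C]
      have h2 : (Sb hk).toRingHom (MvPolynomial.C r) =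
          Polynomial.C (Polynomial.C r) := by
        show Sb hk (MvPolynomial.C r) = _
        rw [← MvPolynomial.algebraMap_eq, AlgHom.commutes]
        rfl
      rw [h2]
      simp
    · rw [RingHom.comp_apply, MvPolynomial.eval_X]
      have h2 : (Sb hk).toRingHom (MvPolynomial.X u) =
          Polynomial.C (Polynomial.C (gR (dl1 hk ℝ u.1)) * Polynomial.X -
            Polynomial.C (fR (dl1 hk ℝ u.1))) +
          Polynomial.C (Polynomial.C (dl1 hk ℝ u.1 {1})) * Polynomial.X := by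
        show Sb hk (MvPolynomial.X u) = _
        rw [Sb, MvPolynomial.aeval_X]
      rw [h2]
      simp [cvR]
      ring
  rw [← h1]
  rfl

/-- The cone of valid inequalities is not semialgebraic. -/
theorem main {U : List Bool →. List Bool} (hU : OptimalPF U)
    (enc : List (List Bool) → List Bool) (henc : Computable enc) (hinj : Function.Injective enc)
    {k : ℕ} (hk : 4 ≤ k) :
    ¬ ∃ (n m : ℕ) (f : Fin n → MvPolynomial {u : Finset (Fin k) // u.Nonempty} ℝ)
        (g : Fin n → Fin m → MvPolynomial {u : Finset (Fin k) // u.Nonempty} ℝ),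
        ∀ c, Vld U enc k c ↔ ∃ j, MvPolynomial.eval c (f j) = 0 ∧
          ∀ l, 0 < MvPolynomial.eval c (g j l) := by
  classical
  rintro ⟨n, m, f, g, hc⟩
  refine semi n m (fun j => Sb hk (f j)) (fun j l => Sb hk (g j l))
    (fun x y => Vld U enc k (fun u => cvR hk x y u.1)) ?_ ?_ ?_ ?_
  · intro x y
    simp only [eval_Sb]
    exact hc _
  · rintro x y y' hy ⟨c, hW⟩
    refine ⟨c, fun n hn A hA => (hW n hn A hA).trans ?_⟩
    rw [sum_sub' hk x y (fun u => (KPof U (enc (sbt A u)) : ℝ)),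
      sum_sub' hk x y' (fun u => (KPof U (enc (sbt A u)) : ℝ))]
    unfold Ev
    have h1 : y * (KPof U (enc (sbt A (mp hk {1}))) : ℝ) ≤
        y' * (KPof U (enc (sbt A (mp hk {1}))) : ℝ) :=
      mul_le_mul_of_nonneg_right hy (Nat.cast_nonneg _)
    linarith
  · intro s
    obtain ⟨M, hM, hlt⟩ := ex_rat (3 * (s : ℝ) + 2)
    set p := exP (1 / (M : ℝ)) with hp
    have hpos : ∀ ω, 0 ≤ p ω := by
      intro ω
      rw [hp, ← exW_pr hM]
      unfold pr
      positivity
    obtain ⟨H, hHd⟩ : ∃ H, H = hh p exX {1} := ⟨_, rfl⟩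
    have hsum1 : ∑ ω, p ω = 1 := by
      rw [hp, Fin.sum_univ_four]
      show (1 - 1 / (M : ℝ)) ^ 2 + 1 / (M : ℝ) * (1 - 1 / (M : ℝ)) +
        1 / (M : ℝ) * (1 - 1 / (M : ℝ)) + (1 / (M : ℝ)) ^ 2 = 1
      ring
    have hH : 0 ≤ H := by
      have h0 : hh p exX ∅ = 0 := by
        unfold hh
        simp [hsum1]
      rw [hHd, ← h0]
      exact mo (Fin 4) (Fin 4) (Fin 4) p exX ∅ {1} hpos (Finset.empty_subset _)
    obtain ⟨η, hη⟩ : ∃ η, η = fI (hh p exX) - (3 * (s : ℝ) + 2) * gI (hh p exX) := ⟨_, rfl⟩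
    have hη0 : 0 < η := by rw [hη]; linarith
    refine ⟨η / (H + 1), by positivity, fun y hy hW => ?_⟩
    have h5 := entropy_of_vld hU enc henc hinj _ hW (n0 := 4) (by norm_num) (exB (k := k))
      (exW M) (exW_pos hM)
    rw [exW_pr hM, ← hp] at h5
    rw [sum_sub' hk (3 * (s : ℝ) + 2) y (fun u => Hf p (rho exB u))] at h5
    unfold Ev at h5
    simp only [ex_Hf] at h5
    rw [← hHd] at h5
    have h6 : η / (H + 1) * (H + 1) = η := div_mul_cancel₀ _ (by positivity)
    have h7 : 0 < η / (H + 1) := by positivity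
    have h8 : y * H ≤ η / (H + 1) * H := mul_le_mul_of_nonneg_right hy.le hH
    have e1 : (fun S => hh p exX S) = hh p exX := rfl
    rw [e1] at h5
    linarith
  · intro s
    have h := vld_of_rat hU enc henc hinj
      (fun u => cvR hk (3 * (s : ℚ) + 2) (2 * (1 / 2) ^ s) u) (cv_empty hk _ _) (info_family hk s)
    refine (iff_of_eq ?_).1 h
    congr 1
    funext u
    rw [cv_cast]
    push_cast
    rfl


end Pool.Agent.Helper78.KS
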