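import Pool.Agent.Helper78.KS.Fin

/-!
The complexity of a tuple of strings of length at most `n` is `O(n)`; hence the cone of valid
inequalities is the same for all versions of complexity that agree up to a logarithm.
-/

set_option autoImplicit false

namespace Pool.Agent.Helper78.KS

open Finset Pool.Agent.Helper981.KP Pool.Agent.N372.EN

theorem ent_form {k m : ℕ} (p : (Fin k → Fin (m + 1)) → ℝ) (S : Finset (Fin k)) :
    (∑ y : Fin k → Fin (m+1),
      (if ∀ i, i ∉ S → y i = 0 then
        Real.negMulLog (∑ z : Fin k → Fin (m+1), if (∀ i ∈ S, z i = y i) then p z else 0)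
       else 0)) = hh p (fun (i : Fin k) (z : Fin k → Fin (m + 1)) => z i) S := by
  classical
  have h1 := ent_push p (fun z : Fin k → Fin (m + 1) => z) S
    (fun z : Fin k → Fin (m + 1) => fun i : S => z i.1)
    (by
      intro ω ω'
      constructor
      · intro h i hi
        exact congrFun h ⟨i, hi⟩
      · intro h
        funext i
        exact h i.1 i.2)
  have h2 : ∀ z : Fin k → Fin (m + 1), (∑ ω : Fin k → Fin (m + 1), if ω = z then p ω else 0) =
      p z := by
    intro z
    simp
  simp only [h2] at h1
  rw [h1]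
  unfold Hf mg hh
  rw [← Finset.sum_neg_distrib]
  refine Finset.sum_congr rfl fun ω _ => ?_
  rw [mul_neg]
  congr 3
  refine Finset.sum_congr rfl fun ω' _ => ?_
  have hiff : ((fun i : S => ω' i.1) = fun i : S => ω i.1) ↔ ∀ i ∈ S, ω' i = ω i := by
    constructor
    · intro h i hi
      exact congrFun h ⟨i, hi⟩
    · intro h
      funext i
      exact h i.1 i.2
  by_cases h : ∀ i ∈ S, ω' i = ω i
  · rw [if_pos (hiff.2 h), if_pos h]
  · rw [if_neg (fun h' => h (hiff.1 h')), if_neg h]

theorem hh_empty' {Ω T ι : Type} [Fintype Ω] [DecidableEq T] (p : Ω → ℝ) (X : ι → Ω → T)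
    (h1 : ∑ ω, p ω = 1) : hh p X ∅ = 0 := by
  unfold hh
  simp [h1]

/-- subadditivity of entropy -/
theorem subadd {Ω T ι : Type} [DecidableEq ι] [Fintype Ω] [DecidableEq T] (p : Ω → ℝ)
    (X : ι → Ω → T) (hp : ∀ ω, 0 ≤ p ω) (h1 : ∑ ω, p ω = 1) (u : Finset ι) :
    hh p X u ≤ ∑ i ∈ u, hh p X {i} := by
  induction u using Finset.induction_on with
  | empty => rw [hh_empty' p X h1]; simp
  | insert a u ha ih =>
    rw [Finset.sum_insert ha]
    have h2 := sm ι Ω T p X {a} u hp
    have h3 : ({a} : Finset ι) ∩ u = ∅ := by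
      rw [Finset.singleton_inter_of_notMem ha]
    rw [h3, hh_empty' p X h1] at h2
    rw [Finset.insert_eq]
    linarith

theorem sum_q {k : ℕ} (u : Finset (Fin k)) (h : Finset (Fin k) → ℝ) :
    ∑ S, (((∑ i ∈ u, if S = {i} then 1 else 0) - (if S = u then 1 else 0) : ℚ) : ℝ) * h S =
      ∑ i ∈ u, h {i} - h u := by
  classical
  have e : ∀ S : Finset (Fin k), (((∑ i ∈ u, if S = {i} then 1 else 0) -
      (if S = u then 1 else 0) : ℚ) : ℝ) * h S =
      (∑ i ∈ u, if S = {i} then h S else 0) - (if S = u then h S else 0) := by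
    intro S
    push_cast
    rw [sub_mul, Finset.sum_mul]
    congr 1
    · refine Finset.sum_congr rfl fun i _ => ?_
      split_ifs <;> simp
    · split_ifs <;> simp
  rw [Finset.sum_congr rfl fun S _ => e S, Finset.sum_sub_distrib, Finset.sum_comm]
  congr 1
  · refine Finset.sum_congr rfl fun i _ => ?_
    rw [Finset.sum_ite_eq' Finset.univ ({i} : Finset (Fin k)) h, if_pos (Finset.mem_univ _)]
  · rw [Finset.sum_ite_eq' Finset.univ u h, if_pos (Finset.mem_univ _)]

section
variable {U : List Bool →. List Bool} (hU : OptimalPF U)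
  (enc : List (List Bool) → List Bool) (henc : Computable enc) (hinj : Function.Injective enc)
include hU henc hinj

/-- subadditivity of complexity -/
theorem K_subadd {k : ℕ} (u : Finset (Fin k)) : ∃ c : ℝ, ∀ A : Fin k → List Bool,
    (KPof U (enc (sbt A u)) : ℝ) ≤ ∑ i ∈ u, (KPof U (enc (sbt A {i})) : ℝ) + c := by
  classical
  have hq : InfoIneq k (fun S => (((∑ i ∈ u, if S = {i} then 1 else 0) -
      (if S = u then 1 else 0) : ℚ) : ℝ)) := by
    intro m p hp hp1
    simp only [ent_form]
    rw [sum_q]
    have := subadd p (fun (i : Fin k) (z : Fin k → Fin (m + 1)) => z i) hp hp1 u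
    linarith
  obtain ⟨c, hc⟩ := rat_machine hU enc henc hinj k _ hq
  refine ⟨c, fun A => ?_⟩
  have h1 := hc A
  rw [sum_q] at h1
  unfold sbt
  linarith

/-- the complexity of one string is at most linear in its length -/
theorem K_single : ∃ c : ℝ, 0 ≤ c ∧ ∀ s : List Bool, (KPof U (enc [s]) : ℝ) ≤
    3 * s.length + c := by
  obtain ⟨c1, hc1⟩ := enc_equiv hU enc henc hinj
  have hK := isKP_of_optimal hU
  set K : ℕ → ℕ := fun u => KPof U (ones u) with hKdef
  obtain ⟨c2, hc2⟩ := list_upper hK (v := fun c => if c < 2 then 1 else 0) (M := 2)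
    (Primrec.ite (Primrec.nat_lt.comp Primrec.id (Primrec.const 2)) (Primrec.const 1)
      (Primrec.const 0)) (by norm_num)
    (by
      intro F
      rw [Finset.sum_ite, Finset.sum_const_zero, add_zero, Finset.sum_const, smul_eq_mul, mul_one]
      calc (F.filter fun c => c < 2).card ≤ (Finset.range 2).card := by
            apply Finset.card_le_card
            intro c hc
            exact Finset.mem_range.2 (Finset.mem_filter.1 hc).2
        _ = 2 := by simp)
  have hcomp : Primrec (fun m : ℕ => (Encodable.encode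
      [(Encodable.encode ((Denumerable.ofNat (List ℕ) m).map fun c => decide (c = 1)) : ℕ)] : ℕ)) := by
    refine Primrec.encode.comp (Primrec.list_cons.comp ?_ (Primrec.const []))
    refine Primrec.encode.comp (Primrec.list_map (Primrec.ofNat _) ?_)
    exact (Primrec.eq.decide.comp Primrec.snd (Primrec.const 1)).to₂
  obtain ⟨c3, hc3⟩ := comp_le hK _ hcomp.to_comp
  refine ⟨|c2| + c1 + c3, by positivity, fun s => ?_⟩
  set C : List ℕ := s.map fun b => if b = true then 1 else 0 with hC
  have hback : (C.map fun c => decide (c = 1)) = s := by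
    rw [hC, List.map_map]
    conv_rhs => rw [← List.map_id s]
    apply List.map_congr_left
    intro b _
    cases b <;> simp
  have hlen : C.length = s.length := by rw [hC, List.length_map]
  have hpw : pw (fun c => if c < 2 then 1 else 0) C = 1 := by
    unfold pw
    rw [hC, List.map_map]
    have : ((fun c : ℕ => if c < 2 then 1 else 0) ∘ fun b : Bool => if b = true then 1 else 0) =
        fun _ => 1 := by
      funext b
      cases b <;> simp
    rw [this]
    simp
  have h2 := hc2 C (by rw [hpw]; norm_num)
  rw [hpw, hlen] at h2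
  have h3 := hc3 (Encodable.encode C)
  simp only [Denumerable.ofNat_encode, hback] at h3
  have h1 := (hc1 [s]).1
  have e : cl [s] = Encodable.encode [(Encodable.encode s : ℕ)] := rfl
  have h1' : (KPof U (enc [s]) : ℝ) ≤ K (cl [s]) + c1 := by exact_mod_cast h1
  have h3' : (K (cl [s]) : ℝ) ≤ K (Encodable.encode C) + c3 := by
    rw [e]
    exact_mod_cast h3
  have l1 : Real.logb 2 (((2 : ℕ) : ℝ) ^ s.length / ((1 : ℕ) : ℝ)) = s.length := by
    push_cast
    rw [div_one, Real.logb_pow, Real.logb_self_eq_one one_lt_two, mul_one]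
  have l2 : Real.logb 2 ((s.length : ℝ) + 1) ≤ s.length := by
    have h5 : (s.length : ℝ) + 1 ≤ 2 ^ s.length := by
      have := Nat.lt_two_pow_self (n := s.length)
      exact_mod_cast this
    calc Real.logb 2 ((s.length : ℝ) + 1) ≤ Real.logb 2 (2 ^ s.length) :=
          Real.logb_le_logb_of_le one_lt_two (by positivity) h5
      _ = s.length := by rw [Real.logb_pow, Real.logb_self_eq_one one_lt_two, mul_one]
  rw [l1] at h2
  have := le_abs_self c2
  linarith

theorem K_linear (k : ℕ) : ∃ c : ℝ, 0 < c ∧ ∀ n : ℕ, 2 ≤ n → ∀ A : Fin k → List Bool,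
    (∀ i, (A i).length ≤ n) → ∀ u : Finset (Fin k), (KPof U (enc (sbt A u)) : ℝ) + 2 ≤ c * n := by
  classical
  obtain ⟨c1, hc10, hc1⟩ := K_single hU enc henc hinj
  choose cu hcu using fun u : Finset (Fin k) => K_subadd hU enc henc hinj u
  refine ⟨(k : ℝ) * (3 + c1) + ∑ u, |cu u| + 2, by positivity, fun n hn A hA u => ?_⟩
  have hn1 : (1 : ℝ) ≤ n := by
    have : (2 : ℝ) ≤ n := by exact_mod_cast hn
    linarith
  have h1 := hcu u A
  have h2 : ∀ i ∈ u, (KPof U (enc (sbt A {i})) : ℝ) ≤ (3 + c1) * n := by
    intro i _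
    have e : sbt A {i} = [A i] := by
      unfold sbt
      have : ((List.finRange k).filter fun j => decide (j ∈ ({i} : Finset (Fin k)))) = [i] := by
        have h0 : ∀ l : List (Fin k), l.Nodup → i ∈ l →
            (l.filter fun j => decide (j ∈ ({i} : Finset (Fin k)))) = [i] := by
          intro l hl hi
          induction l with
          | nil => simp at hi
          | cons a l ih =>
            rw [List.nodup_cons] at hl
            by_cases hai : a = i
            · subst hai
              have h00 : (l.filter fun j => decide (j ∈ ({a} : Finset (Fin k)))) = [] := by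
                rw [List.filter_eq_nil_iff]
                intro j hj
                simp only [Finset.mem_singleton, decide_eq_true_eq]
                rintro rfl
                exact hl.1 hj
              rw [List.filter_cons, if_pos (by simp), h00]
            · rw [List.filter_cons, if_neg (by simpa using hai)]
              refine ih hl.2 ?_
              rcases List.mem_cons.1 hi with h | h
              · exact absurd h.symm hai
              · exact h
        exact h0 _ (List.nodup_finRange k) (List.mem_finRange i)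
      rw [this]
      rfl
    rw [e]
    have h3 := hc1 (A i)
    have h4 : ((A i).length : ℝ) ≤ n := by exact_mod_cast hA i
    nlinarith
  have h5 : ∑ i ∈ u, (KPof U (enc (sbt A {i})) : ℝ) ≤ (k : ℝ) * ((3 + c1) * n) := by
    calc ∑ i ∈ u, (KPof U (enc (sbt A {i})) : ℝ) ≤ ∑ i ∈ u, (3 + c1) * (n : ℝ) :=
          Finset.sum_le_sum h2
      _ = u.card * ((3 + c1) * (n : ℝ)) := by rw [Finset.sum_const, nsmul_eq_mul]
      _ ≤ (k : ℝ) * ((3 + c1) * n) := by
          refine mul_le_mul_of_nonneg_right ?_ (by positivity)
          have := Finset.card_le_univ u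
          rw [Fintype.card_fin] at this
          exact_mod_cast this
  have h6 : |cu u| ≤ ∑ u, |cu u| :=
    Finset.single_le_sum (f := fun u => |cu u|) (fun _ _ => abs_nonneg _) (Finset.mem_univ u)
  have h7 := le_abs_self (cu u)
  have h8 : 0 ≤ ∑ u, |cu u| := Finset.sum_nonneg fun _ _ => abs_nonneg _
  have h9 : ∑ u, |cu u| ≤ (∑ u, |cu u|) * n := le_mul_of_one_le_right h8 hn1
  have h10 : (2 : ℝ) ≤ 2 * n := by linarith
  calc (KPof U (enc (sbt A u)) : ℝ) + 2 ≤ (k : ℝ) * ((3 + c1) * n) + (∑ u, |cu u|) * n + 2 * n := by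
        linarith
    _ = _ := by ring

end

end Pool.Agent.Helper78.KS
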