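import Pool.Agent.Helper96.KS.Parts

/-!
# Several prescribed pairs (part MULT of KS)
-/

set_option autoImplicit false

open Finset

namespace KS.MULT_78

open scoped Classical

open Inst

theorem main (hPL : S_PL) (hQ : S_Q) : KS.S_MULT := by
  intro K Δ I hI b
  induction b with
  | zero =>
    intro _ x y _
    simp only [pow_zero, mul_one]
    exact_mod_cast card_filter_le _ _
  | succ b ih =>
    intro hb x y hinj
    have hK : (2 : ℝ) ≤ K := by exact_mod_cast hI.hK
    have hN : (0 : ℝ) < I.N := by exact_mod_cast hI.npos
    set x' : Fin b → I.H := fun i => x i.castSucc with hx'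
    set y' : Fin b → I.H := fun i => y i.castSucc with hy'
    have hinj' : Function.Injective (Sum.elim x' y') := by
      have h1 : Sum.elim x' y' = Sum.elim x y ∘ (Sum.map Fin.castSucc Fin.castSucc) := by
        funext i
        rcases i with i | i <;> rfl
      rw [h1]
      exact hinj.comp (Function.Injective.sumMap (Fin.castSucc_injective b)
        (Fin.castSucc_injective b))
    have hIH := ih (by
      have : 4 * K * (2 * b + 2) ≤ 4 * K * (2 * (b + 1) + 2) :=
        Nat.mul_le_mul_left _ (by omega)
      omega) x' y' hinj'
    set A : Finset (I.H → I.H) := I.Om.filter fun η => ∀ i, η (x' i) = y' i with hA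
    have hsub : (I.Om.filter fun η => ∀ i, η (x i) = y i) =
        A.filter fun η => η (x (Fin.last b)) = y (Fin.last b) := by
      ext η
      simp only [hA, mem_filter]
      constructor
      · rintro ⟨h1, h2⟩
        exact ⟨⟨h1, fun i => h2 _⟩, h2 _⟩
      · rintro ⟨⟨h1, h2⟩, h3⟩
        refine ⟨h1, fun i => ?_⟩
        induction i using Fin.lastCases with
        | last => exact h3
        | cast i => exact h2 i
    rw [hsub]
    have hstep : ((A.filter fun η => η (x (Fin.last b)) = y (Fin.last b)).card : ℝ) ≤
        A.card * (3 * K / I.N) := by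
      rcases A.eq_empty_or_nonempty with hemp | ⟨η0, hη0⟩
      · rw [hemp]
        simp
      · have hη0' := hη0
        rw [hA, mem_filter] at hη0'
        obtain ⟨hOm, hval⟩ := hη0'
        have hinvo : ∀ η ∈ I.Om, ∀ z, η (η z) = z := by
          intro η hη
          exact ((mem_filter.mp hη).2).1
        set D : Finset I.H := univ.image x' ∪ univ.image y' with hD
        have hcl : ∀ z ∈ D, η0 z ∈ D := by
          intro z hz
          rw [hD, mem_union, mem_image, mem_image] at hz
          rcases hz with ⟨i, _, rfl⟩ | ⟨i, _, rfl⟩
          · rw [hval i, hD, mem_union]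
            exact Or.inr (mem_image_of_mem _ (mem_univ i))
          · rw [← hval i, hinvo η0 hOm, hD, mem_union]
            exact Or.inl (mem_image_of_mem _ (mem_univ i))
        have hDcard : D.card ≤ 2 * b := by
          calc D.card ≤ (univ.image x').card + (univ.image y').card := card_union_le _ _
            _ ≤ b + b := by
              refine add_le_add ?_ ?_
              · exact card_image_le.trans (by simp)
              · exact card_image_le.trans (by simp)
            _ = 2 * b := by ring
        have hCls : I.Cls η0 D = A := by
          ext η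
          simp only [Inst.Cls, hA, mem_filter]
          constructor
          · rintro ⟨h1, h2⟩
            refine ⟨h1, fun i => ?_⟩
            rw [h2 (x' i) (by rw [hD, mem_union]; exact Or.inl (mem_image_of_mem _ (mem_univ i))),
              hval i]
          · rintro ⟨h1, h2⟩
            refine ⟨h1, fun z hz => ?_⟩
            rw [hD, mem_union, mem_image, mem_image] at hz
            rcases hz with ⟨i, _, rfl⟩ | ⟨i, _, rfl⟩
            · rw [h2 i, hval i]
            · have h3 := h2 i
              have h4 : η (y' i) = x' i := by rw [← h3, hinvo η h1]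
              have h5 : η0 (y' i) = x' i := by rw [← hval i, hinvo η0 hOm]
              rw [h4, h5]
        have hu : x (Fin.last b) ∉ D := by
          rw [hD, mem_union, mem_image, mem_image]
          rintro (⟨i, _, hi⟩ | ⟨i, _, hi⟩)
          · have h6 := @hinj (Sum.inl i.castSucc) (Sum.inl (Fin.last b)) hi
            exact absurd (Sum.inl_injective h6) (Fin.castSucc_lt_last i).ne
          · have h6 := @hinj (Sum.inr i.castSucc) (Sum.inl (Fin.last b)) hi
            exact absurd h6 (by simp)
        have hv : y (Fin.last b) ∉ D := by
          rw [hD, mem_union, mem_image, mem_image]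
          rintro (⟨i, _, hi⟩ | ⟨i, _, hi⟩)
          · have h6 := @hinj (Sum.inl i.castSucc) (Sum.inr (Fin.last b)) hi
            exact absurd h6 (by simp)
          · have h6 := @hinj (Sum.inr i.castSucc) (Sum.inr (Fin.last b)) hi
            exact absurd (Sum.inr_injective h6) (Fin.castSucc_lt_last i).ne
        have hne : y (Fin.last b) ≠ x (Fin.last b) := by
          intro h
          have h6 := @hinj (Sum.inr (Fin.last b)) (Sum.inl (Fin.last b)) h
          exact absurd h6 (by simp)
        have hNb : 4 * K * (D.card + 2) ≤ I.N := by
          have : 4 * K * (D.card + 2) ≤ 4 * K * (2 * (b + 1) + 2) :=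
            Nat.mul_le_mul_left _ (by omega)
          omega
        have h7 := hPL K Δ I hI η0 hOm D hcl hNb _ hu _ hv hne
        rw [hCls] at h7
        have h8 := (abs_le.mp h7).2
        have h9 := (hQ K Δ I hI).2.2.2.2.2.1 (I.c (x (Fin.last b))) (y (Fin.last b))
        have hAc : (0 : ℝ) ≤ A.card := Nat.cast_nonneg _
        have h10 : 8 * (K : ℝ) ^ 2 * (D.card + 1) / (I.N : ℝ) ^ 2 ≤ 2 * K / I.N := by
          rw [div_le_div_iff₀ (by positivity) hN]
          have h11 : (4 * K * (D.card + 2) : ℝ) ≤ I.N := by exact_mod_cast hNb
          have h12 : (0 : ℝ) ≤ D.card := Nat.cast_nonneg _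
          have h13 : (4 * (K : ℝ) * (D.card + 1)) ≤ I.N := by nlinarith
          have h14 : 0 ≤ 2 * (K : ℝ) * I.N := by positivity
          nlinarith [mul_le_mul_of_nonneg_left h13 h14]
        calc ((A.filter fun η => η (x (Fin.last b)) = y (Fin.last b)).card : ℝ)
            ≤ 8 * (K : ℝ) ^ 2 * (D.card + 1) / (I.N : ℝ) ^ 2 * A.card +
              I.q (I.c (x (Fin.last b))) (y (Fin.last b)) * A.card := by linarith
          _ ≤ 2 * K / I.N * A.card + K / I.N * A.card :=
              add_le_add (mul_le_mul_of_nonneg_right h10 hAc)
                (mul_le_mul_of_nonneg_right h9 hAc)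
          _ = A.card * (3 * K / I.N) := by ring
    have h0 : (0 : ℝ) ≤ 3 * K / I.N := by positivity
    calc ((A.filter fun η => η (x (Fin.last b)) = y (Fin.last b)).card : ℝ)
        ≤ A.card * (3 * K / I.N) := hstep
      _ ≤ (I.Om.card * (3 * K / I.N) ^ b) * (3 * K / I.N) := mul_le_mul_of_nonneg_right hIH h0
      _ = I.Om.card * (3 * K / I.N) ^ (b + 1) := by ring

end KS.MULT_78
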