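import Pool.Agent.Helper78.KS.Upper

/-!
Expected complexity of the sub-tuples of a random tuple of strings whose columns are independent
and identically distributed: it is `N` times the entropy, up to `O(log N)`.
-/

set_option autoImplicit false

namespace Pool.Agent.Helper78.KS

open Finset Pool.Agent.Helper981.KP

variable {k n0 : ℕ} (X : Fin k → Fin n0 → Bool) (w : Fin n0 → ℕ)

/-- the letter of the sub-tuple `S` for the outcome `ω`, as a number -/
def rho (S : Finset (Fin k)) (ω : Fin n0) : ℕ :=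
  Encodable.encode (List.ofFn (fun i : Fin k => if i ∈ S then X i ω else false))

/-- the bit number `i` of a letter -/
def bit (i c : ℕ) : Bool := ((Encodable.decode c : Option (List Bool)).getD []).getD i false

theorem bit_rho (S : Finset (Fin k)) (ω : Fin n0) {i : Fin k} (hi : i ∈ S) :
    bit i (rho X S ω) = X i ω := by
  unfold bit rho
  rw [Encodable.encodek, Option.getD_some, List.getD_eq_getElem _ _ (by simp)]
  simp [hi]

theorem rho_iff (S : Finset (Fin k)) (ω ω' : Fin n0) :
    rho X S ω = rho X S ω' ↔ ∀ i ∈ S, X i ω = X i ω' := by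
  constructor
  · intro h i hi
    rw [← bit_rho X S ω hi, ← bit_rho X S ω' hi, h]
  · intro h
    unfold rho
    congr 2
    funext i
    split_ifs with hi
    · exact h i hi
    · rfl

theorem primrec_bit (i : ℕ) : Primrec (bit i) := by
  unfold bit
  exact (Primrec.list_getD false).comp
    (Primrec.option_getD.comp Primrec.decode (Primrec.const [])) (Primrec.const i)

/-- the weight of a letter -/
def vS (S : Finset (Fin k)) (c : ℕ) : ℕ := ∑ ω, if rho X S ω = c then w ω else 0

theorem primrec_finset_sum {ι : Type*} (J : Finset ι) (F : ι → ℕ → ℕ)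
    (hF : ∀ i, Primrec (F i)) : Primrec (fun a => ∑ i ∈ J, F i a) := by
  classical
  induction J using Finset.induction_on with
  | empty => simpa using Primrec.const 0
  | insert i J hi ih =>
    simp only [Finset.sum_insert hi]
    exact Primrec.nat_add.comp (hF i) ih

theorem primrec_vS (S : Finset (Fin k)) : Primrec (vS X w S) := by
  unfold vS
  apply primrec_finset_sum
  intro ω
  exact Primrec.ite (Primrec.eq.comp (Primrec.const _) Primrec.id) (Primrec.const _)
    (Primrec.const 0)

theorem vS_sum (S : Finset (Fin k)) (F : Finset ℕ) : ∑ c ∈ F, vS X w S c ≤ ∑ ω, w ω := by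
  unfold vS
  rw [Finset.sum_comm]
  refine Finset.sum_le_sum fun ω _ => ?_
  rw [Finset.sum_ite_eq]
  split_ifs
  · exact le_rfl
  · exact Nat.zero_le _

/-- the tuple of strings (restricted to `S`) given by a sequence of outcomes -/
def tup (S : Finset (Fin k)) {N : ℕ} (ω : Fin N → Fin n0) : List (List Bool) :=
  ((List.finRange k).filter (fun i => decide (i ∈ S))).map
    (fun i => List.ofFn (fun j => X i (ω j)))

/-- the sequence of letters -/
def seq (S : Finset (Fin k)) {N : ℕ} (ω : Fin N → Fin n0) : List ℕ :=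
  List.ofFn (fun j => rho X S (ω j))

/-- transposition -/
def tr (S : Finset (Fin k)) (m : ℕ) : ℕ :=
  Encodable.encode (((List.finRange k).filter (fun i => decide (i ∈ S))).map
    (fun i : Fin k =>
      (Encodable.encode ((Denumerable.ofNat (List ℕ) m).map (bit i.val)) : ℕ)))

theorem primrec_tr (S : Finset (Fin k)) : Primrec (tr S) := by
  unfold tr
  refine Primrec.encode.comp ?_
  refine primrec_list_fix _
    (fun (i : Fin k) m =>
      (Encodable.encode ((Denumerable.ofNat (List ℕ) m).map (bit i.val)) : ℕ)) ?_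
  intro i
  exact Primrec.encode.comp (Primrec.list_map (Primrec.ofNat _)
    ((primrec_bit i).comp Primrec.snd).to₂)

theorem tr_seq (S : Finset (Fin k)) {N : ℕ} (ω : Fin N → Fin n0) :
    tr S (Encodable.encode (seq X S ω)) = cl (tup X S ω) := by
  unfold tr cl tup seq
  rw [Denumerable.ofNat_encode, List.map_map]
  congr 1
  apply List.map_congr_left
  intro i hi
  have hi' : i ∈ S := by
    have := (List.mem_filter.1 hi).2
    simpa using this
  rw [List.map_ofFn]
  simp only [Function.comp_def]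
  congr 2
  funext j
  exact bit_rho X S (ω j) hi'

theorem tup_iff (S : Finset (Fin k)) {N : ℕ} (ω ω' : Fin N → Fin n0) :
    cl (tup X S ω) = cl (tup X S ω') ↔ ∀ j, rho X S (ω j) = rho X S (ω' j) := by
  constructor
  · intro h j
    rw [rho_iff]
    intro i hi
    have h1 := congrArg dl h
    rw [dl_cl, dl_cl] at h1
    unfold tup at h1
    rw [List.map_inj_left] at h1
    have h2 := h1 i (List.mem_filter.2 ⟨List.mem_finRange i, by simpa using hi⟩)
    exact congrFun (List.ofFn_injective h2) j
  · intro h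
    rw [← tr_seq, ← tr_seq]
    unfold seq
    simp only [h]

/-- the probabilities -/
noncomputable def pr (ω : Fin n0) : ℝ := (w ω : ℝ) / ((∑ ω', w ω' : ℕ) : ℝ)

/-- the product distribution -/
noncomputable def PP (p : Fin n0 → ℝ) {N : ℕ} (ω : Fin N → Fin n0) : ℝ := ∏ j, p (ω j)

theorem sum_PP {p : Fin n0 → ℝ} (hp : ∑ ω, p ω = 1) (N : ℕ) :
    ∑ ω : Fin N → Fin n0, PP p ω = 1 := by
  unfold PP
  have := Finset.prod_univ_sum (fun _ : Fin N => (Finset.univ : Finset (Fin n0)))
    (fun (_ : Fin N) (a : Fin n0) => p a)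
  rw [Fintype.piFinset_univ] at this
  rw [← this, hp]
  simp

theorem sum_PP_mul {p : Fin n0 → ℝ} (hp : ∑ ω, p ω = 1) {N : ℕ} (j : Fin N) (g : Fin n0 → ℝ) :
    ∑ ω : Fin N → Fin n0, PP p ω * g (ω j) = ∑ a, p a * g a := by
  classical
  unfold PP
  have h := Finset.prod_univ_sum (fun _ : Fin N => (Finset.univ : Finset (Fin n0)))
    (fun (i : Fin N) (a : Fin n0) => p a * if i = j then g a else 1)
  rw [Fintype.piFinset_univ] at h
  have h1 : ∀ ω : Fin N → Fin n0, (∏ i, (p (ω i) * if i = j then g (ω i) else 1)) =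
      (∏ i, p (ω i)) * g (ω j) := by
    intro ω
    rw [Finset.prod_mul_distrib, Finset.prod_ite_eq' Finset.univ j (fun i => g (ω i))]
    simp
  rw [← Finset.sum_congr rfl fun ω _ => h1 ω, ← h]
  have h2 : ∀ i : Fin N, (∑ a, p a * if i = j then g a else 1) =
      if i = j then ∑ a, p a * g a else 1 := by
    intro i
    split_ifs with hij
    · rfl
    · simp [hp]
  rw [Finset.prod_congr rfl fun i _ => h2 i, Finset.prod_ite_eq' Finset.univ j]
  simp

theorem mg_prod (p : Fin n0 → ℝ) (S : Finset (Fin k)) {N : ℕ} (ω : Fin N → Fin n0) :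
    mg (PP p) (fun ω' : Fin N → Fin n0 => cl (tup X S ω')) ω = ∏ j, mg p (rho X S) (ω j) := by
  classical
  unfold mg
  have h := Finset.prod_univ_sum (fun _ : Fin N => (Finset.univ : Finset (Fin n0)))
    (fun (i : Fin N) (a : Fin n0) => if rho X S a = rho X S (ω i) then p a else 0)
  rw [Fintype.piFinset_univ] at h
  rw [h]
  refine Finset.sum_congr rfl fun ω' _ => ?_
  unfold PP
  by_cases hc : ∀ j, rho X S (ω' j) = rho X S (ω j)
  · rw [if_pos ((tup_iff X S ω' ω).2 hc)]
    exact Finset.prod_congr rfl fun j _ => by rw [if_pos (hc j)]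
  · rw [if_neg (fun h => hc ((tup_iff X S ω' ω).1 h))]
    push Not at hc
    obtain ⟨j, hj⟩ := hc
    symm
    exact Finset.prod_eq_zero (Finset.mem_univ j) (if_neg hj)

theorem Hf_prod {p : Fin n0 → ℝ} (hp0 : ∀ ω, 0 < p ω) (hp : ∑ ω, p ω = 1) (S : Finset (Fin k))
    (N : ℕ) : Hf (PP p) (fun ω : Fin N → Fin n0 => cl (tup X S ω)) = N * Hf p (rho X S) := by
  unfold Hf
  have hpos : ∀ ω, 0 < mg p (rho X S) ω := fun ω =>
    lt_of_lt_of_le (hp0 ω) (le_mg p (fun ω => (hp0 ω).le) _ ω)
  have h1 : ∀ ω : Fin N → Fin n0, PP p ω *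
      (-Real.log (mg (PP p) (fun ω' : Fin N → Fin n0 => cl (tup X S ω')) ω)) =
      ∑ j, PP p ω * (-Real.log (mg p (rho X S) (ω j))) := by
    intro ω
    rw [mg_prod, Real.log_prod (fun j _ => (hpos (ω j)).ne'), ← Finset.sum_neg_distrib,
      Finset.mul_sum]
  rw [Finset.sum_congr rfl fun ω _ => h1 ω, Finset.sum_comm]
  rw [Finset.sum_congr rfl fun j _ => sum_PP_mul hp j (fun a => -Real.log (mg p (rho X S) a))]
  rw [Finset.sum_const, Finset.card_univ, Fintype.card_fin, nsmul_eq_mul]

/-- the lower bound: expected code length is at least the entropy -/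
theorem lower {K : ℕ → ℕ} (hK : IsKP K) {Ω : Type*} [Fintype Ω] (P : Ω → ℝ)
    (hP0 : ∀ ω, 0 < P ω) (hP : ∑ ω, P ω = 1) (Y : Ω → ℕ) :
    Hf P Y ≤ Real.log 2 * ∑ ω, P ω * K (Y ω) := by
  classical
  have hpos : ∀ ω, 0 < mg P Y ω := fun ω =>
    lt_of_lt_of_le (hP0 ω) (le_mg P (fun ω => (hP0 ω).le) _ ω)
  have hl : ∀ ω, P ω * (-Real.log (mg P Y ω)) - Real.log 2 * (P ω * K (Y ω)) ≤
      (1 / 2) ^ K (Y ω) * (P ω / mg P Y ω) - P ω := by
    intro ω
    have h1 := Real.log_le_sub_one_of_pos
      (show (0 : ℝ) < (1 / 2) ^ K (Y ω) / mg P Y ω from div_pos (by positivity) (hpos ω))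
    rw [Real.log_div (by positivity) (hpos ω).ne', Real.log_pow, one_div, Real.log_inv] at h1
    have h2 := mul_le_mul_of_nonneg_left h1 (hP0 ω).le
    have e : (1 / 2 : ℝ) ^ K (Y ω) * (P ω / mg P Y ω) - P ω =
      P ω * ((2 : ℝ)⁻¹ ^ K (Y ω) / mg P Y ω - 1) := by
      rw [one_div]; ring
    rw [e]
    refine le_trans (le_of_eq ?_) h2
    ring
  have hsum := Finset.sum_le_sum (s := Finset.univ) fun ω _ => hl ω
  rw [Finset.sum_sub_distrib, Finset.sum_sub_distrib, hP, ← Finset.mul_sum] at hsum
  have hkr : ∑ ω, (1 / 2 : ℝ) ^ K (Y ω) * (P ω / mg P Y ω) ≤ 1 := by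
    calc ∑ ω, (1 / 2 : ℝ) ^ K (Y ω) * (P ω / mg P Y ω)
        = ∑ c ∈ Finset.univ.image Y, ∑ ω, (if Y ω = c then
            (1 / 2 : ℝ) ^ K (Y ω) * (P ω / mg P Y ω) else 0) := by
          rw [Finset.sum_comm]
          refine Finset.sum_congr rfl fun ω _ => ?_
          rw [Finset.sum_ite_eq, if_pos (Finset.mem_image_of_mem _ (Finset.mem_univ ω))]
      _ = ∑ c ∈ Finset.univ.image Y, (1 / 2 : ℝ) ^ K c *
            ∑ ω, (if Y ω = c then P ω / mg P Y ω else 0) := by
          refine Finset.sum_congr rfl fun c _ => ?_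
          rw [Finset.mul_sum]
          refine Finset.sum_congr rfl fun ω _ => ?_
          split_ifs with h
          · rw [h]
          · ring
      _ ≤ ∑ c ∈ Finset.univ.image Y, (1 / 2 : ℝ) ^ K c * 1 := by
          refine Finset.sum_le_sum fun c _ => ?_
          exact mul_le_mul_of_nonneg_left (sum_div_mg_le_one P (fun ω => (hP0 ω).le) Y c)
            (by positivity)
      _ ≤ 1 := by
          simp only [mul_one]
          exact finite_of_kraft hK.2.1 _
  unfold Hf
  linarith

/-- the two bounds for the expected complexity -/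
theorem expected {K : ℕ → ℕ} (hK : IsKP K) (hw : ∀ ω, 0 < w ω) (hn0 : 0 < n0)
    (S : Finset (Fin k)) : ∃ c : ℝ, ∀ N : ℕ,
      N * Hf (pr w) (rho X S) ≤
        Real.log 2 * ∑ ω : Fin N → Fin n0, PP (pr w) ω * K (cl (tup X S ω)) ∧
      Real.log 2 * ∑ ω : Fin N → Fin n0, PP (pr w) ω * K (cl (tup X S ω)) ≤
        N * Hf (pr w) (rho X S) + 2 * Real.log ((N : ℝ) + 1) + c := by
  classical
  set M : ℕ := ∑ ω, w ω with hMdef
  have hM : 0 < M := by
    have h1 : w ⟨0, hn0⟩ ≤ M := Finset.single_le_sum (fun _ _ => Nat.zero_le _)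
      (Finset.mem_univ _)
    exact lt_of_lt_of_le (hw _) h1
  have hM' : (0 : ℝ) < M := by exact_mod_cast hM
  have hp0 : ∀ ω, 0 < pr w ω := fun ω => by
    unfold pr
    have : (0 : ℝ) < w ω := by exact_mod_cast hw ω
    positivity
  have hp : ∑ ω, pr w ω = 1 := by
    unfold pr
    rw [← Finset.sum_div, div_eq_one_iff_eq (by exact_mod_cast hM.ne')]
    push_cast
    rfl
  have hlog2 : 0 < Real.log 2 := Real.log_pos one_lt_two
  obtain ⟨c1, hc1⟩ := comp_le hK (tr S) (primrec_tr S).to_comp
  obtain ⟨c2, hc2⟩ := list_upper hK (primrec_vS X w S) hM (vS_sum X w S)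
  refine ⟨Real.log 2 * (c1 + c2), fun N => ⟨?_, ?_⟩⟩
  · rw [← Hf_prod X hp0 hp S N]
    exact lower hK (PP (pr w)) (fun ω => Finset.prod_pos fun j _ => hp0 _) (sum_PP hp N) _
  · have hterm : ∀ ω : Fin N → Fin n0, (K (cl (tup X S ω)) : ℝ) ≤
        Real.logb 2 (1 / mg (PP (pr w)) (fun ω' : Fin N → Fin n0 => cl (tup X S ω')) ω) +
          2 * Real.logb 2 ((N : ℝ) + 1) + (c1 + c2) := by
      intro ω
      have h1 : (K (cl (tup X S ω)) : ℝ) ≤ K (Encodable.encode (seq X S ω)) + c1 := by
        have := hc1 (Encodable.encode (seq X S ω))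
        rw [tr_seq] at this
        exact_mod_cast this
      have hpw : pw (vS X w S) (seq X S ω) = ∏ j, vS X w S (rho X S (ω j)) := by
        unfold pw seq
        rw [List.map_ofFn, List.prod_ofFn]
        rfl
      have hv : ∀ a, 0 < vS X w S (rho X S a) := by
        intro a
        unfold vS
        refine lt_of_lt_of_le (hw a) ?_
        refine le_trans ?_ (Finset.single_le_sum (f := fun ω' => if rho X S ω' = rho X S a
          then w ω' else 0) (fun _ _ => Nat.zero_le _) (Finset.mem_univ a))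
        simp
      have hpos : 0 < pw (vS X w S) (seq X S ω) := by
        rw [hpw]
        exact Finset.prod_pos fun j _ => hv _
      have h2 := hc2 (seq X S ω) hpos
      have hlen : (seq X S ω).length = N := by unfold seq; simp
      rw [hlen] at h2
      have hmg : ∀ a, mg (pr w) (rho X S) a = (vS X w S (rho X S a) : ℝ) / M := by
        intro a
        unfold mg vS pr
        push_cast
        rw [Finset.sum_div]
        refine Finset.sum_congr rfl fun ω' _ => ?_
        rw [hMdef]
        push_cast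
        split_ifs
        · rfl
        · simp
      have e : (M : ℝ) ^ N / pw (vS X w S) (seq X S ω) =
          1 / mg (PP (pr w)) (fun ω' : Fin N → Fin n0 => cl (tup X S ω')) ω := by
        rw [mg_prod, hpw]
        rw [Finset.prod_congr rfl fun j _ => hmg (ω j), Finset.prod_div_distrib,
          Finset.prod_const, Finset.card_univ, Fintype.card_fin]
        push_cast
        rw [one_div_div]
      rw [e] at h2
      linarith
    have hPP0 : ∀ ω : Fin N → Fin n0, 0 < PP (pr w) ω :=
      fun ω => Finset.prod_pos fun j _ => hp0 _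
    have hsum : ∑ ω : Fin N → Fin n0, PP (pr w) ω * K (cl (tup X S ω)) ≤
        ∑ ω : Fin N → Fin n0, (PP (pr w) ω *
          Real.logb 2 (1 / mg (PP (pr w)) (fun ω' : Fin N → Fin n0 => cl (tup X S ω')) ω) +
          PP (pr w) ω * (2 * Real.logb 2 ((N : ℝ) + 1) + (c1 + c2))) := by
      refine Finset.sum_le_sum fun ω _ => ?_
      rw [← mul_add]
      refine mul_le_mul_of_nonneg_left ?_ (hPP0 ω).le
      have := hterm ω
      linarith
    rw [Finset.sum_add_distrib, ← Finset.sum_mul, sum_PP hp, one_mul] at hsum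
    have hH : Real.log 2 * ∑ ω : Fin N → Fin n0, PP (pr w) ω *
          Real.logb 2 (1 / mg (PP (pr w)) (fun ω' : Fin N → Fin n0 => cl (tup X S ω')) ω) =
        N * Hf (pr w) (rho X S) := by
      rw [← Hf_prod X hp0 hp S N, Finset.mul_sum]
      unfold Hf
      refine Finset.sum_congr rfl fun ω _ => ?_
      rw [Real.logb, one_div, Real.log_inv]
      field_simp
    have h3 := mul_le_mul_of_nonneg_left hsum hlog2.le
    rw [mul_add, hH] at h3
    have e3 : Real.log 2 * (2 * Real.logb 2 ((N : ℝ) + 1) + (c1 + c2)) =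
        2 * Real.log ((N : ℝ) + 1) + Real.log 2 * (c1 + c2) := by
      rw [Real.logb]
      field_simp
    rw [e3] at h3
    linarith

end Pool.Agent.Helper78.KS
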