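import Pool.Graph.R_seed8.Helper981.KP.Final

/-!
An upper bound for the complexity of a sequence over a weighted alphabet (code length of a
memoryless source).
-/

set_option autoImplicit false

namespace Pool.Agent.Helper78.KS

open Finset Pool.Agent.Helper981.KP

/-- product of the weights of the letters of a list -/
def pw (v : ℕ → ℕ) (C : List ℕ) : ℕ := (C.map v).prod

theorem primrec_list_prod : Primrec (List.prod : List ℕ → ℕ) := by
  have h : Primrec (fun l : List ℕ => l.foldr (fun b s => b * s) 1) :=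
    Primrec.list_foldr (f := fun l : List ℕ => l) (g := fun _ => 1)
      (h := fun _ p => p.1 * p.2) Primrec.id (Primrec.const 1)
      (Primrec.nat_mul.comp (Primrec.fst.comp Primrec.snd) (Primrec.snd.comp Primrec.snd)).to₂
  refine h.of_eq fun l => ?_
  rw [List.prod_eq_foldr]

theorem primrec_pw {v : ℕ → ℕ} (hv : Primrec v) : Primrec (pw v) := by
  unfold pw
  exact primrec_list_prod.comp (Primrec.list_map Primrec.id (hv.comp Primrec.snd).to₂)

/-- sum over a finite set of lists of the same length -/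
theorem sum_lists_le (f : ℕ → ℝ) (hf : ∀ c, 0 ≤ f c) (hs : ∀ F : Finset ℕ, ∑ c ∈ F, f c ≤ 1) :
    ∀ (N : ℕ) (F : Finset (List ℕ)), (∀ C ∈ F, C.length = N) → ∑ C ∈ F, (C.map f).prod ≤ 1 := by
  classical
  intro N
  induction N with
  | zero =>
    intro F hF
    have h1 : F ⊆ {[]} := by
      intro C hC
      have := hF C hC
      rw [List.length_eq_zero_iff] at this
      simp [this]
    calc ∑ C ∈ F, (C.map f).prod ≤ ∑ C ∈ ({[]} : Finset (List ℕ)), (C.map f).prod :=
          Finset.sum_le_sum_of_subset_of_nonneg h1 (fun C _ _ => List.prod_nonneg (by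
            intro a ha
            obtain ⟨c, _, rfl⟩ := List.mem_map.1 ha
            exact hf c))
      _ = 1 := by simp
  | succ N ih =>
    intro F hF
    have hnn : ∀ C : List ℕ, 0 ≤ (C.map f).prod := fun C => List.prod_nonneg (by
      intro a ha
      obtain ⟨c, _, rfl⟩ := List.mem_map.1 ha
      exact hf c)
    -- heads and tails
    have hinj : Set.InjOn (fun C : List ℕ => (C.headI, C.tail)) (F : Set (List ℕ)) := by
      intro C hC C' hC' h
      have h1 := hF C hC
      have h2 := hF C' hC'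
      rcases C with _ | ⟨a, C⟩
      · simp at h1
      rcases C' with _ | ⟨a', C'⟩
      · simp at h2
      simpa using h
    calc ∑ C ∈ F, (C.map f).prod
        = ∑ C ∈ F, f C.headI * (C.tail.map f).prod := by
          refine Finset.sum_congr rfl fun C hC => ?_
          have h1 := hF C hC
          rcases C with _ | ⟨a, C⟩
          · simp at h1
          · simp
      _ = ∑ q ∈ F.image (fun C : List ℕ => (C.headI, C.tail)), f q.1 * (q.2.map f).prod := by
          rw [Finset.sum_image hinj]
      _ ≤ ∑ q ∈ (F.image fun C : List ℕ => C.headI) ×ˢ (F.image fun C : List ℕ => C.tail),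
            f q.1 * (q.2.map f).prod := by
          refine Finset.sum_le_sum_of_subset_of_nonneg ?_
            (fun q _ _ => mul_nonneg (hf _) (hnn _))
          intro q hq
          obtain ⟨C, hC, rfl⟩ := Finset.mem_image.1 hq
          exact Finset.mem_product.2 ⟨Finset.mem_image_of_mem _ hC, Finset.mem_image_of_mem _ hC⟩
      _ = (∑ c ∈ F.image fun C : List ℕ => C.headI, f c) *
            ∑ C ∈ F.image fun C : List ℕ => C.tail, (C.map f).prod := by
          rw [Finset.sum_product, Finset.sum_mul]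
          refine Finset.sum_congr rfl fun c _ => ?_
          rw [Finset.mul_sum]
      _ ≤ 1 * 1 := by
          refine mul_le_mul (hs _) (ih _ ?_) (Finset.sum_nonneg fun C _ => hnn C) zero_le_one
          intro C hC
          obtain ⟨C', hC', rfl⟩ := Finset.mem_image.1 hC
          rw [List.length_tail, hF C' hC']
          rfl
      _ = 1 := by norm_num

theorem sum_sq_le (n : ℕ) : ∑ N ∈ Finset.range n, (1 : ℝ) / ((N : ℝ) + 1) ^ 2 ≤ 2 := by
  have h : ∀ n : ℕ, ∑ N ∈ Finset.range (n + 1), (1 : ℝ) / ((N : ℝ) + 1) ^ 2 ≤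
      2 - 1 / ((n : ℝ) + 1) := by
    intro n
    induction n with
    | zero => norm_num
    | succ n ih =>
      rw [Finset.sum_range_succ]
      push_cast
      have h1 : (1 : ℝ) / ((n : ℝ) + 1 + 1) ^ 2 ≤ 1 / ((n : ℝ) + 1) - 1 / ((n : ℝ) + 1 + 1) := by
        have : 1 / ((n : ℝ) + 1) - 1 / ((n : ℝ) + 1 + 1) - 1 / ((n : ℝ) + 1 + 1) ^ 2 =
          1 / (((n : ℝ) + 1) * ((n : ℝ) + 1 + 1) ^ 2) := by
          field_simp
          ring
        have h2 : (0 : ℝ) ≤ 1 / (((n : ℝ) + 1) * ((n : ℝ) + 1 + 1) ^ 2) := by positivity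
        linarith
      linarith
  have h0 : (0 : ℝ) ≤ 1 / ((n : ℝ) + 1) := by positivity
  refine le_trans ?_ (h n |>.trans (by linarith))
  exact Finset.sum_le_sum_of_subset_of_nonneg (Finset.range_mono (Nat.le_succ n))
    (fun N _ _ => by positivity)

/-- the condition that `t` codes a good pair of exponents for the list coded by `m` -/
def good (v : ℕ → ℕ) (M m t : ℕ) : Prop :=
  0 < pw v (Denumerable.ofNat (List ℕ) m) ∧
    M ^ (Denumerable.ofNat (List ℕ) m).length ≤
      2 ^ t.unpair.1 * pw v (Denumerable.ofNat (List ℕ) m) ∧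
    (Denumerable.ofNat (List ℕ) m).length + 1 ≤ 2 ^ t.unpair.2

instance (v : ℕ → ℕ) (M m t : ℕ) : Decidable (good v M m t) := by
  unfold good
  infer_instance

/-- the code length -/
def gl (v : ℕ → ℕ) (M m t : ℕ) : ℕ :=
  if good v M m t then t.unpair.1 + 2 * t.unpair.2 + 2 else m + 2

theorem computable_gl {v : ℕ → ℕ} (hv : Primrec v) (M : ℕ) : Computable₂ (gl v M) := by
  have p1 : Primrec (fun p : ℕ × ℕ => p.2.unpair.1) :=
    Primrec.fst.comp (Primrec.unpair.comp Primrec.snd)
  have p2 : Primrec (fun p : ℕ × ℕ => p.2.unpair.2) :=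
    Primrec.snd.comp (Primrec.unpair.comp Primrec.snd)
  have pl : Primrec (fun p : ℕ × ℕ => Denumerable.ofNat (List ℕ) p.1) :=
    (Primrec.ofNat (List ℕ)).comp Primrec.fst
  have pN : Primrec (fun p : ℕ × ℕ => (Denumerable.ofNat (List ℕ) p.1).length) :=
    Primrec.list_length.comp pl
  have pP : Primrec (fun p : ℕ × ℕ => pw v (Denumerable.ofNat (List ℕ) p.1)) :=
    (primrec_pw hv).comp pl
  have hgood : PrimrecPred (fun p : ℕ × ℕ => good v M p.1 p.2) := by
    unfold good
    refine PrimrecPred.and ?_ (PrimrecPred.and ?_ ?_)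
    · exact Primrec.nat_lt.comp (Primrec.const 0) pP
    · exact Primrec.nat_le.comp (primrec_pow.comp (Primrec.const M) pN)
        (Primrec.nat_mul.comp (primrec_pow.comp (Primrec.const 2) p1) pP)
    · exact Primrec.nat_le.comp (Primrec.succ.comp pN) (primrec_pow.comp (Primrec.const 2) p2)
  refine Primrec.to_comp ?_
  exact Primrec.ite hgood
    (Primrec.nat_add.comp (Primrec.nat_add.comp p1 (Primrec.nat_mul.comp (Primrec.const 2) p2))
      (Primrec.const 2)) (Primrec.nat_add.comp Primrec.fst (Primrec.const 2))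

theorem geom_le (U : Finset ℕ) : ∑ u ∈ U, ((1 : ℝ) / 2) ^ (u + 2) ≤ 1 / 2 := by
  have h1 : ∀ u : ℕ, ((1 : ℝ) / 2) ^ (u + 2) = (1 / 4) * (1 / 2) ^ u := fun u => by
    rw [pow_add]; ring
  simp only [h1, ← Finset.mul_sum]
  have h2 : ∑ u ∈ U, ((1 : ℝ) / 2) ^ u ≤ 2 := by
    have := summable_geometric_two.sum_le_tsum U (fun x _ => by positivity)
    rwa [tsum_geometric_two] at this
  linarith

theorem kraft_gl {v : ℕ → ℕ} {M : ℕ} (hM : 0 < M) (hs : ∀ F : Finset ℕ, ∑ c ∈ F, v c ≤ M)
    (U : Finset ℕ) (τ : ℕ → ℕ) : ∑ u ∈ U, ((1 : ℝ) / 2) ^ (gl v M u (τ u)) ≤ 1 := by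
  classical
  have hM' : (0 : ℝ) < M := by exact_mod_cast hM
  set f : ℕ → ℝ := fun c => (v c : ℝ) / M with hf
  have hf0 : ∀ c, 0 ≤ f c := fun c => by positivity
  have hfs : ∀ F : Finset ℕ, ∑ c ∈ F, f c ≤ 1 := by
    intro F
    rw [hf, ← Finset.sum_div, div_le_one hM']
    exact_mod_cast hs F
  have hprod : ∀ C : List ℕ, (C.map f).prod = (pw v C : ℝ) / M ^ C.length := by
    intro C
    induction C with
    | nil => simp [pw]
    | cons a C ih =>
      rw [List.map_cons, List.prod_cons, ih]
      simp only [pw, List.map_cons, List.prod_cons, List.length_cons, hf]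
      push_cast
      field_simp
      ring
  rw [← Finset.sum_filter_add_sum_filter_not U (fun u => good v M u (τ u))]
  have hbad : ∑ u ∈ U.filter (fun u => ¬ good v M u (τ u)), ((1 : ℝ) / 2) ^ (gl v M u (τ u)) ≤
      1 / 2 := by
    rw [Finset.sum_congr rfl (g := fun u => ((1 : ℝ) / 2) ^ (u + 2))]
    · exact geom_le _
    · intro u hu
      have := (Finset.mem_filter.1 hu).2
      rw [gl, if_neg this]
  have hterm : ∀ u, good v M u (τ u) → ((1 : ℝ) / 2) ^ (gl v M u (τ u)) ≤
      (1 / 4) * ((1 : ℝ) / (((Denumerable.ofNat (List ℕ) u).length : ℝ) + 1) ^ 2 *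
        ((Denumerable.ofNat (List ℕ) u).map f).prod) := by
    intro u hu
    rw [gl, if_pos hu, hprod]
    obtain ⟨h1, h2, h3⟩ := hu
    set C := Denumerable.ofNat (List ℕ) u
    set x := (τ u).unpair.1
    set y := (τ u).unpair.2
    have h1' : (0 : ℝ) < pw v C := by exact_mod_cast h1
    have h2' : (M : ℝ) ^ C.length ≤ 2 ^ x * pw v C := by exact_mod_cast h2
    have h3' : (C.length : ℝ) + 1 ≤ 2 ^ y := by exact_mod_cast h3
    have e1 : ((1 : ℝ) / 2) ^ (x + 2 * y + 2) = (1 / 4) * ((1 / (2 ^ y) ^ 2) * (1 / 2 ^ x)) := by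
      have e2 : ((2 : ℝ) ^ 2) ^ y = (2 ^ y) ^ 2 := by rw [← pow_mul, ← pow_mul, mul_comm 2 y]
      rw [pow_add, pow_add, pow_mul, one_div_pow, one_div_pow, one_div_pow, e2]
      ring
    rw [e1]
    refine mul_le_mul_of_nonneg_left ?_ (by norm_num)
    refine mul_le_mul ?_ ?_ (by positivity) (by positivity)
    · exact one_div_le_one_div_of_le (by positivity)
        (pow_le_pow_left₀ (by positivity) h3' 2)
    · rw [div_le_div_iff₀ (by positivity) (by positivity)]
      linarith
  have hgood : ∑ u ∈ U.filter (fun u => good v M u (τ u)), ((1 : ℝ) / 2) ^ (gl v M u (τ u)) ≤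
      1 / 2 := by
    set G := U.filter (fun u => good v M u (τ u)) with hG
    have hinj : Set.InjOn (Denumerable.ofNat (List ℕ)) (G : Set ℕ) := by
      intro a _ b _ h
      have := congrArg Encodable.encode h
      simpa using this
    set F := G.image (Denumerable.ofNat (List ℕ)) with hF
    calc ∑ u ∈ G, ((1 : ℝ) / 2) ^ (gl v M u (τ u))
        ≤ ∑ u ∈ G, (1 / 4) * ((1 : ℝ) / (((Denumerable.ofNat (List ℕ) u).length : ℝ) + 1) ^ 2 *
            ((Denumerable.ofNat (List ℕ) u).map f).prod) :=
          Finset.sum_le_sum fun u hu => hterm u (Finset.mem_filter.1 hu).2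
      _ = (1 / 4) * ∑ C ∈ F, (1 : ℝ) / ((C.length : ℝ) + 1) ^ 2 * (C.map f).prod := by
          rw [← Finset.mul_sum, hF, Finset.sum_image hinj]
      _ = (1 / 4) * ∑ N ∈ F.image List.length, ∑ C ∈ F.filter (fun C => C.length = N),
            (1 : ℝ) / ((C.length : ℝ) + 1) ^ 2 * (C.map f).prod := by
          rw [Finset.sum_fiberwise_of_maps_to]
          intro C hC
          exact Finset.mem_image_of_mem _ hC
      _ ≤ (1 / 4) * ∑ N ∈ F.image List.length, (1 : ℝ) / ((N : ℝ) + 1) ^ 2 * 1 := by
          refine mul_le_mul_of_nonneg_left ?_ (by norm_num)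
          refine Finset.sum_le_sum fun N _ => ?_
          have h1 : ∑ C ∈ F.filter (fun C => C.length = N),
            (1 : ℝ) / ((C.length : ℝ) + 1) ^ 2 * (C.map f).prod =
            (1 : ℝ) / ((N : ℝ) + 1) ^ 2 * ∑ C ∈ F.filter (fun C => C.length = N),
              (C.map f).prod := by
            rw [Finset.mul_sum]
            refine Finset.sum_congr rfl fun C hC => ?_
            rw [(Finset.mem_filter.1 hC).2]
          rw [h1]
          refine mul_le_mul_of_nonneg_left ?_ (by positivity)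
          exact sum_lists_le f hf0 hfs N _ (fun C hC => (Finset.mem_filter.1 hC).2)
      _ ≤ (1 / 4) * 2 := by
          refine mul_le_mul_of_nonneg_left ?_ (by norm_num)
          simp only [mul_one]
          obtain ⟨n, hn⟩ := (F.image List.length).exists_nat_subset_range
          exact (Finset.sum_le_sum_of_subset_of_nonneg hn (fun N _ _ => by positivity)).trans
            (sum_sq_le n)
      _ = 1 / 2 := by norm_num
  linarith

/-- Upper bound for the complexity of a list of numbers, by a memoryless source with weights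
`v`. -/
theorem list_upper {K : ℕ → ℕ} (hK : IsKP K) {v : ℕ → ℕ} (hv : Primrec v) {M : ℕ} (hM : 0 < M)
    (hs : ∀ F : Finset ℕ, ∑ c ∈ F, v c ≤ M) :
    ∃ c : ℝ, ∀ C : List ℕ, 0 < pw v C →
      (K (Encodable.encode C) : ℝ) ≤ Real.logb 2 ((M : ℝ) ^ C.length / pw v C) +
        2 * Real.logb 2 ((C.length : ℝ) + 1) + c := by
  obtain ⟨c, hc⟩ := approx_le hK (gl v M) (computable_gl hv M) (kraft_gl hM hs)
  refine ⟨c + 5, fun C hC => ?_⟩
  have hC' : (0 : ℝ) < pw v C := by exact_mod_cast hC
  have hM' : (0 : ℝ) < M := by exact_mod_cast hM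
  -- the total weight bounds the product
  have hle : pw v C ≤ M ^ C.length := by
    clear hC hC'
    induction C with
    | nil => simp [pw]
    | cons a C ih =>
      simp only [pw, List.map_cons, List.prod_cons, List.length_cons, pow_succ'] at ih ⊢
      refine Nat.mul_le_mul ?_ ih
      have := hs {a}
      simpa using this
  have hx : (1 : ℝ) ≤ (M : ℝ) ^ C.length / pw v C := by
    rw [le_div_iff₀ hC', one_mul]
    exact_mod_cast hle
  obtain ⟨x, hx1, hx2⟩ := exists_nat_pow_near hx one_lt_two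
  obtain ⟨y, hy1, hy2⟩ := exists_nat_pow_near
    (show (1 : ℝ) ≤ (C.length : ℝ) + 1 by
      have : (0 : ℝ) ≤ C.length := Nat.cast_nonneg _
      linarith) one_lt_two
  have hg : good v M (Encodable.encode C) (Nat.pair (x + 1) (y + 1)) := by
    unfold good
    rw [Denumerable.ofNat_encode, Nat.unpair_pair]
    refine ⟨hC, ?_, ?_⟩
    · have h1 : (M : ℝ) ^ C.length ≤ 2 ^ (x + 1) * pw v C := by
        rw [← div_le_iff₀ hC']
        exact hx2.le
      exact_mod_cast h1
    · have h1 : (C.length : ℝ) + 1 ≤ 2 ^ (y + 1) := hy2.le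
      exact_mod_cast h1
  have h := hc (Encodable.encode C) (Nat.pair (x + 1) (y + 1))
  rw [gl, if_pos hg, Nat.unpair_pair] at h
  have h' : (K (Encodable.encode C) : ℝ) ≤ (x : ℝ) + 1 + 2 * ((y : ℝ) + 1) + 2 + c := by
    exact_mod_cast h
  have l1 : (x : ℝ) ≤ Real.logb 2 ((M : ℝ) ^ C.length / pw v C) := by
    rw [Real.le_logb_iff_rpow_le one_lt_two (by linarith)]
    rw [Real.rpow_natCast]
    exact hx1
  have l2 : (y : ℝ) ≤ Real.logb 2 ((C.length : ℝ) + 1) := by
    rw [Real.le_logb_iff_rpow_le one_lt_two (by positivity)]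
    rw [Real.rpow_natCast]
    exact hy1
  linarith

end Pool.Agent.Helper78.KS
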